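import Mathlib

/-!
# A search over base four digits
-/

set_option autoImplicit false

namespace Pool.Agent.X3.P4

/-- a linear form `k + x a + y b + z c`, which has to be a power of four (`fl = false`) or zero
(`fl = true`) -/
structure Fm where
  x : ℕ
  y : ℕ
  z : ℕ
  k : ℕ
  fl : Bool

/-- strict application -/
def force {α : Type} (n : ℕ) (f : ℕ → α) : α :=
  match n with
  | 0 => f 0
  | m + 1 => f (m + 1)

/-- one digit step on a list of forms -/
def stepL (a b c : ℕ) : List Fm → List Fm
  | [] => []
  | f :: L => force (f.k + (f.x * a + (f.y * b + f.z * c))) fun v =>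
      match f.fl with
      | true => bif v.beq 0 then f :: stepL a b c L else stepL a b c L
      | false => bif (v % 4).beq 0 then
            force (v / 4) fun k => ⟨f.x, f.y, f.z, k, false⟩ :: stepL a b c L
          else bif v.beq 1 then ⟨f.x, f.y, f.z, 0, true⟩ :: stepL a b c L
          else stepL a b c L

/-- one digit step on a state; `none` if some list of forms becomes empty -/
def stepS (a b c : ℕ) : List (List Fm) → Option (List (List Fm))
  | [] => some []
  | L :: s =>
    match stepL a b c L with
    | [] => none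
    | g :: M =>
      match stepS a b c s with
      | none => none
      | some s' => some ((g :: M) :: s')

/-- equality test for forms -/
def eqF (f g : Fm) : Bool :=
  f.k.beq g.k && f.x.beq g.x && f.y.beq g.y && f.z.beq g.z && (f.fl == g.fl)

def eqL : List Fm → List Fm → Bool
  | [], [] => true
  | f :: L, g :: M => eqF f g && eqL L M
  | _, _ => false

def eqS : List (List Fm) → List (List Fm) → Bool
  | [], [] => true
  | L :: s, M :: t => eqL L M && eqS s t
  | _, _ => false

/-- is `k` one of the powers of four below `4 ^ 8`? -/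
def isP4 (k : ℕ) : Bool :=
  k.beq 1 || k.beq 4 || k.beq 16 || k.beq 64 || k.beq 256 || k.beq 1024 || k.beq 4096 ||
    k.beq 16384

def okF (f : Fm) : Bool := match f.fl with
  | true => f.k.beq 0
  | false => isP4 f.k || (Nat.ble 16384 f.k)

/-- could the state accept the zero remainder? -/
def accept (s : List (List Fm)) : Bool := s.all fun L => L.any okF

/-- a node of the search -/
structure Node where
  s : List (List Fm)
  nb : Bool
  nc : Bool
  sol : List (ℕ × ℕ × ℕ)

def memT (t : ℕ × ℕ × ℕ) : List (ℕ × ℕ × ℕ) → Bool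
  | [] => false
  | u :: S => (t.1.beq u.1 && t.2.1.beq u.2.1 && t.2.2.beq u.2.2) || memT t S

def subT (S T : List (ℕ × ℕ × ℕ)) : Bool := S.all fun t => memT t T

/-- solutions of the child node -/
def stepT (a b c : ℕ) : List (ℕ × ℕ × ℕ) → List (ℕ × ℕ × ℕ)
  | [] => []
  | t :: S => bif (t.1 % 4).beq a && (t.2.1 % 4).beq b && (t.2.2 % 4).beq c then
      (t.1 / 4, t.2.1 / 4, t.2.2 / 4) :: stepT a b c S else stepT a b c S

def inStack (m : Node) (stk : List Node) : Bool :=
  stk.any fun p => (p.nb == m.nb) && (p.nc == m.nc) && eqS p.s m.s && subT p.sol m.sol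

def digits : List (ℕ × ℕ × ℕ) :=
  [0, 1, 2, 3].flatMap fun a => [0, 1, 2, 3].flatMap fun b => [0, 1, 2, 3].map fun c => (a, b, c)

def child (nd : Node) (a b c : ℕ) (s' : List (List Fm)) : Node :=
  ⟨s', nd.nb || !(b.beq 0), nd.nc || !(c.beq 0), stepT a b c nd.sol⟩

def explore : ℕ → List Node → Node → Bool
  | 0, _, _ => false
  | n + 1, stk, nd =>
    (!(nd.nb && nd.nc && accept nd.s) || memT (0, 0, 0) nd.sol) &&
    digits.all fun d =>
      match stepS d.1 d.2.1 d.2.2 nd.s with
      | none => true
      | some s' =>
        inStack (child nd d.1 d.2.1 d.2.2 s') (nd :: stk) ||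
          explore n (nd :: stk) (child nd d.1 d.2.1 d.2.2 s')

/-- the root: the first digits are not all zero -/
def root (nd : Node) : Bool :=
  digits.all fun d =>
    (d.1.beq 0 && d.2.1.beq 0 && d.2.2.beq 0) ||
      match stepS d.1 d.2.1 d.2.2 nd.s with
      | none => true
      | some s' => explore 12 [] (child nd d.1 d.2.1 d.2.2 s')

/-- the forms which belong to `n` -/
def forms (n : ℕ) : List Fm :=
  (List.range (n + 1)).flatMap fun x => (List.range (n + 1)).flatMap fun y =>
    (List.range (n + 1)).filterMap fun z =>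
      bif (Nat.ble (x * x + y * y + z * z) (n * n)) &&
        ((List.range (n + 1)).any fun w => Nat.beq (x * x + y * y + z * z + w * w) (n * n)) &&
        Nat.beq (1024 % (Nat.gcd x (Nat.gcd y z))) 0 &&
        Nat.blt 0 (x + y + z)
      then some ⟨x, y, z, 0, false⟩ else none

def start : Node :=
  ⟨[[⟨1, 0, 0, 0, false⟩], [⟨0, 2, 0, 0, false⟩, ⟨1, 1, 1, 0, false⟩], forms 3, forms 6, forms 7,
    forms 9, forms 11, forms 13, forms 18, forms 22, forms 23, forms 26, forms 29], false, false,
    [(1, 2, 3)]⟩

end Pool.Agent.X3.P4
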