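import Pool.Agent.X3.P4.Defs

/-!
# Soundness of the search over base four digits
-/

set_option autoImplicit false

namespace Pool.Agent.X3.P4

lemma force_eq {α : Type} (n : ℕ) (f : ℕ → α) : force n f = f n := by
  cases n <;> rfl

/-- value of the variable part -/
def tv (f : Fm) (a b c : ℕ) : ℕ := f.x * a + (f.y * b + f.z * c)

def Holds (f : Fm) (a b c : ℕ) : Prop :=
  match f.fl with
  | true => f.k + tv f a b c = 0
  | false => ∃ j, f.k + tv f a b c = 4 ^ j

def PS (s : List (List Fm)) (a b c : ℕ) : Prop := ∀ L ∈ s, ∃ f ∈ L, Holds f a b c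

lemma tv_step (f : Fm) (a b c a' b' c' : ℕ) :
    tv f (4 * a' + a) (4 * b' + b) (4 * c' + c) = tv f a b c + 4 * tv f a' b' c' := by
  unfold tv; ring

lemma stepL_sub (a b c : ℕ) (f g : Fm) (L : List Fm) (h : g ∈ stepL a b c L) :
    g ∈ stepL a b c (f :: L) := by
  rw [stepL, force_eq]
  cases hfl : f.fl
  · simp only [force_eq]
    cases h1 : (((f.k + (f.x * a + (f.y * b + f.z * c))) % 4).beq 0)
    · cases h2 : ((f.k + (f.x * a + (f.y * b + f.z * c))).beq 1)
      · simpa using h
      · simp [h]
    · simp [h]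
  · simp only
    cases h1 : ((f.k + (f.x * a + (f.y * b + f.z * c))).beq 0)
    · simpa using h
    · simp [h]

lemma stepL_head (a b c a' b' c' : ℕ) (f : Fm) (L : List Fm)
    (h : Holds f (4 * a' + a) (4 * b' + b) (4 * c' + c)) :
    ∃ g ∈ stepL a b c (f :: L), Holds g a' b' c' := by
  unfold Holds at h
  rw [tv_step] at h
  rw [stepL, force_eq]
  have htv : f.x * a + (f.y * b + f.z * c) = tv f a b c := rfl
  rw [htv]
  cases hfl : f.fl
  · rw [hfl] at h
    obtain ⟨j, hj⟩ := h
    simp only [force_eq]
    cases j with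
    | zero =>
      rw [pow_zero] at hj
      have h0 : f.k + tv f a b c = 1 := by omega
      have h1 : tv f a' b' c' = 0 := by omega
      rw [h0]
      refine ⟨⟨f.x, f.y, f.z, 0, true⟩, ?_, ?_⟩
      · have e1 : Nat.beq 1 0 = false := rfl
        simp [e1]
      · show 0 + tv f a' b' c' = 0
        omega
    | succ j =>
      rw [pow_succ] at hj
      have h0 : (f.k + tv f a b c) % 4 = 0 := by omega
      rw [h0]
      refine ⟨⟨f.x, f.y, f.z, (f.k + tv f a b c) / 4, false⟩, ?_, ?_⟩
      · simp
      · show ∃ j, (f.k + tv f a b c) / 4 + tv f a' b' c' = 4 ^ j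
        refine ⟨j, ?_⟩
        omega
  · rw [hfl] at h
    simp only at h ⊢
    have h0 : f.k + tv f a b c = 0 := by omega
    rw [h0]
    refine ⟨f, by simp, ?_⟩
    unfold Holds
    rw [hfl]
    show f.k + tv f a' b' c' = 0
    omega

lemma stepL_mem (a b c a' b' c' : ℕ) (L : List Fm) (f : Fm) (hf : f ∈ L)
    (h : Holds f (4 * a' + a) (4 * b' + b) (4 * c' + c)) :
    ∃ g ∈ stepL a b c L, Holds g a' b' c' := by
  induction L with
  | nil => simp at hf
  | cons f0 L ih =>
    rcases List.mem_cons.1 hf with h1 | h1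
    · subst h1
      exact stepL_head a b c a' b' c' f L h
    · obtain ⟨g, hg, hg'⟩ := ih h1
      exact ⟨g, stepL_sub a b c f0 g L hg, hg'⟩

lemma stepS_spec (a b c a' b' c' : ℕ) (s : List (List Fm))
    (h : PS s (4 * a' + a) (4 * b' + b) (4 * c' + c)) :
    ∃ s', stepS a b c s = some s' ∧ PS s' a' b' c' := by
  induction s with
  | nil => exact ⟨[], rfl, fun L hL => by simp at hL⟩
  | cons L s ih =>
    obtain ⟨s', hs', hPS⟩ := ih (fun M hM => h M (List.mem_cons_of_mem _ hM))
    obtain ⟨f, hf, hf'⟩ := h L (by simp)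
    obtain ⟨g, hg, hg'⟩ := stepL_mem a b c a' b' c' L f hf hf'
    rw [stepS]
    cases hL : stepL a b c L with
    | nil => rw [hL] at hg; simp at hg
    | cons g0 M =>
      simp only [hs']
      refine ⟨_, rfl, ?_⟩
      intro K hK
      rcases List.mem_cons.1 hK with h1 | h1
      · subst h1
        rw [hL] at hg
        exact ⟨g, hg, hg'⟩
      · exact hPS K h1

lemma accept_of (s : List (List Fm)) (h : PS s 0 0 0) : accept s = true := by
  unfold accept
  rw [List.all_eq_true]
  intro L hL
  rw [List.any_eq_true]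
  obtain ⟨f, hf, hf'⟩ := h L hL
  refine ⟨f, hf, ?_⟩
  have h0 : tv f 0 0 0 = 0 := by simp [tv]
  unfold Holds at hf'
  unfold okF
  rw [h0] at hf'
  cases hfl : f.fl
  · rw [hfl] at hf'
    obtain ⟨j, hj⟩ := hf'
    rw [add_zero] at hj
    simp only
    rw [hj]
    rcases Nat.lt_or_ge j 8 with h8 | h8
    · interval_cases j <;> decide
    · have : 16384 ≤ 4 ^ j := by
        calc 16384 ≤ 4 ^ 8 := by norm_num
          _ ≤ 4 ^ j := Nat.pow_le_pow_right (by norm_num) h8
      simp [this]
  · rw [hfl] at hf'
    simp only at hf' ⊢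
    have : f.k = 0 := by omega
    rw [this]
    rfl

lemma eqF_eq {f g : Fm} (h : eqF f g = true) : f = g := by
  cases f; cases g
  simp [eqF] at h
  simp [h]

lemma eqL_eq : ∀ {L M : List Fm}, eqL L M = true → L = M
  | [], [], _ => rfl
  | f :: L, g :: M, h => by
    rw [eqL, Bool.and_eq_true] at h
    rw [eqF_eq h.1, eqL_eq h.2]
  | [], g :: M, h => by simp [eqL] at h
  | f :: L, [], h => by simp [eqL] at h

lemma eqS_eq : ∀ {s t : List (List Fm)}, eqS s t = true → s = t
  | [], [], _ => rfl
  | f :: L, g :: M, h => by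
    rw [eqS, Bool.and_eq_true] at h
    rw [eqL_eq h.1, eqS_eq h.2]
  | [], g :: M, h => by simp [eqS] at h
  | f :: L, [], h => by simp [eqS] at h

lemma memT_mem (t : ℕ × ℕ × ℕ) : ∀ {S : List (ℕ × ℕ × ℕ)}, memT t S = true → t ∈ S
  | [], h => by simp [memT] at h
  | u :: S, h => by
    rw [memT, Bool.or_eq_true] at h
    rcases h with h | h
    · simp only [Bool.and_eq_true, Nat.beq_eq] at h
      have : t = u := by
        obtain ⟨t1, t2, t3⟩ := t
        obtain ⟨u1, u2, u3⟩ := u
        simp at h
        simp [h]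
      rw [this]
      simp
    · exact List.mem_cons_of_mem _ (memT_mem t h)

lemma stepT_mem (a b c : ℕ) (t : ℕ × ℕ × ℕ) : ∀ {S : List (ℕ × ℕ × ℕ)}, t ∈ stepT a b c S →
    (4 * t.1 + a, 4 * t.2.1 + b, 4 * t.2.2 + c) ∈ S
  | [], h => by simp [stepT] at h
  | u :: S, h => by
    rw [stepT] at h
    cases hc : ((u.1 % 4).beq a && (u.2.1 % 4).beq b && (u.2.2 % 4).beq c)
    · rw [hc] at h
      exact List.mem_cons_of_mem _ (stepT_mem a b c t h)
    · rw [hc] at h
      simp only [cond_true] at h
      rcases List.mem_cons.1 h with h1 | h1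
      · simp only [Bool.and_eq_true, Nat.beq_eq] at hc
        have : (4 * t.1 + a, 4 * t.2.1 + b, 4 * t.2.2 + c) = u := by
          rw [h1]
          obtain ⟨u1, u2, u3⟩ := u
          simp only at hc ⊢
          ext <;> simp only <;> omega
        rw [this]
        simp
      · exact List.mem_cons_of_mem _ (stepT_mem a b c t h1)

def Good (nd : Node) (a b c : ℕ) : Prop :=
  PS nd.s a b c → (nd.nb = true ∨ b ≠ 0) → (nd.nc = true ∨ c ≠ 0) → (a, b, c) ∈ nd.sol

lemma good_child {nd : Node} {a b c a' b' c' : ℕ} {s' : List (List Fm)}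
    (hs : stepS a b c nd.s = some s') (h : Good (child nd a b c s') a' b' c') :
    Good nd (4 * a' + a) (4 * b' + b) (4 * c' + c) := by
  intro hPS hb hc
  obtain ⟨s'', hs'', hPS'⟩ := stepS_spec a b c a' b' c' nd.s hPS
  rw [hs] at hs''
  have he : s' = s'' := Option.some.inj hs''
  subst he
  have hmem := h hPS' ?_ ?_
  · exact stepT_mem a b c _ hmem
  · show ((nd.nb || !(b.beq 0)) = true) ∨ b' ≠ 0
    rcases hb with hb | hb
    · left; simp [hb]
    · by_cases hb0 : b = 0
      · right; omega
      · left
        have : b.beq 0 = false := by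
          rw [← Bool.not_eq_true, Nat.beq_eq]; exact hb0
        simp [this]
  · show ((nd.nc || !(c.beq 0)) = true) ∨ c' ≠ 0
    rcases hc with hc | hc
    · left; simp [hc]
    · by_cases hc0 : c = 0
      · right; omega
      · left
        have : c.beq 0 = false := by
          rw [← Bool.not_eq_true, Nat.beq_eq]; exact hc0
        simp [this]

lemma digits_mem (a b c : ℕ) : (a % 4, b % 4, c % 4) ∈ digits := by
  have ha : a % 4 < 4 := Nat.mod_lt _ (by norm_num)
  have hb : b % 4 < 4 := Nat.mod_lt _ (by norm_num)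
  have hc : c % 4 < 4 := Nat.mod_lt _ (by norm_num)
  generalize a % 4 = x at *
  generalize b % 4 = y at *
  generalize c % 4 = z at *
  interval_cases x <;> interval_cases y <;> interval_cases z <;> decide

lemma inStack_spec {m : Node} {stk : List Node} (h : inStack m stk = true) {a b c : ℕ}
    (hstk : ∀ p ∈ stk, Good p a b c) : Good m a b c := by
  unfold inStack at h
  rw [List.any_eq_true] at h
  obtain ⟨p, hp, hp'⟩ := h
  simp only [Bool.and_eq_true, beq_iff_eq] at hp'
  obtain ⟨⟨⟨h1, h2⟩, h3⟩, h4⟩ := hp'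
  intro hPS hb hc
  have h5 := hstk p hp (by rw [eqS_eq h3]; exact hPS) (by rw [h1]; exact hb) (by rw [h2]; exact hc)
  unfold subT at h4
  rw [List.all_eq_true] at h4
  exact memT_mem _ (h4 _ h5)

theorem explore_sound : ∀ (fuel : ℕ) (stk : List Node) (nd : Node), explore fuel stk nd = true →
    ∀ N : ℕ, (∀ p ∈ stk, ∀ a b c : ℕ, a + b + c < N → Good p a b c) →
      ∀ a b c : ℕ, a + b + c < N + 1 → Good nd a b c := by
  intro fuel
  induction fuel with
  | zero => intro stk nd h; simp [explore] at h
  | succ fuel ih =>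
    intro stk nd h N
    have h' := h
    rw [explore, Bool.and_eq_true] at h
    obtain ⟨hzero, hdig⟩ := h
    rw [List.all_eq_true] at hdig
    induction N with
    | zero =>
      intro hstk a b c hsum
      have ha : a = 0 := by omega
      have hb : b = 0 := by omega
      have hc : c = 0 := by omega
      subst ha hb hc
      intro hPS hb hc
      have hnb : nd.nb = true := by simpa using hb
      have hnc : nd.nc = true := by simpa using hc
      have := accept_of nd.s hPS
      rw [hnb, hnc, this] at hzero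
      exact memT_mem _ (by simpa using hzero)
    | succ N ihN =>
      intro hstk a b c hsum
      have hstk' : ∀ p ∈ nd :: stk, ∀ a b c : ℕ, a + b + c < N + 1 → Good p a b c := by
        intro p hp a b c habc
        rcases List.mem_cons.1 hp with h1 | h1
        · subst h1
          exact ihN (fun p hp a b c habc => hstk p hp a b c (by omega)) a b c habc
        · exact hstk p h1 a b c habc
      by_cases hz : a = 0 ∧ b = 0 ∧ c = 0
      · obtain ⟨rfl, rfl, rfl⟩ := hz
        intro hPS hb hc
        have hnb : nd.nb = true := by simpa using hb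
        have hnc : nd.nc = true := by simpa using hc
        have := accept_of nd.s hPS
        rw [hnb, hnc, this] at hzero
        exact memT_mem _ (by simpa using hzero)
      · have hd := hdig _ (digits_mem a b c)
        have ea : 4 * (a / 4) + a % 4 = a := by omega
        have eb : 4 * (b / 4) + b % 4 = b := by omega
        have ec : 4 * (c / 4) + c % 4 = c := by omega
        intro hPS
        have hPS0 := hPS
        rw [← ea, ← eb, ← ec] at hPS
        obtain ⟨s', hs', hPS'⟩ := stepS_spec _ _ _ _ _ _ nd.s hPS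
        simp only [hs', Bool.or_eq_true] at hd
        have hlt : a / 4 + b / 4 + c / 4 < N + 1 := by omega
        have hgood : Good (child nd (a % 4) (b % 4) (c % 4) s') (a / 4) (b / 4) (c / 4) := by
          rcases hd with hd | hd
          · exact inStack_spec hd (fun p hp => hstk' p hp _ _ _ hlt)
          · exact ih (nd :: stk) _ hd (N + 1) hstk' _ _ _ (by omega)
        have := good_child hs' hgood
        rw [ea, eb, ec] at this
        exact this hPS0

theorem root_sound {nd : Node} (h : root nd = true) (a b c : ℕ)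
    (hd : ¬ (a % 4 = 0 ∧ b % 4 = 0 ∧ c % 4 = 0)) : Good nd a b c := by
  unfold root at h
  rw [List.all_eq_true] at h
  have h1 := h _ (digits_mem a b c)
  have ea : 4 * (a / 4) + a % 4 = a := by omega
  have eb : 4 * (b / 4) + b % 4 = b := by omega
  have ec : 4 * (c / 4) + c % 4 = c := by omega
  intro hPS
  have hPS0 := hPS
  rw [← ea, ← eb, ← ec] at hPS
  obtain ⟨s', hs', hPS'⟩ := stepS_spec _ _ _ _ _ _ nd.s hPS
  simp only [hs', Bool.or_eq_true, Bool.and_eq_true, Nat.beq_eq] at h1
  rcases h1 with h1 | h1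
  · exact absurd ⟨h1.1.1, h1.1.2, h1.2⟩ hd
  · have hg := explore_sound _ _ _ h1 (a / 4 + b / 4 + c / 4) (fun p hp => by simp at hp)
      (a / 4) (b / 4) (c / 4) (by omega)
    have := good_child hs' hg
    rw [ea, eb, ec] at this
    exact this hPS0

end Pool.Agent.X3.P4
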