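import Pool.Agent.X3.P4.Run
import Pool.Agent.X3.P4.Sound

/-!
# Completeness of the lists of forms
-/

set_option autoImplicit false
set_option maxRecDepth 100000

namespace Pool.Agent.X3.P4

theorem c3 : eqL (forms 3) L3 = true := by decide +kernel
theorem c6 : eqL (forms 6) L6 = true := by decide +kernel
theorem c7 : eqL (forms 7) L7 = true := by decide +kernel
theorem c9 : eqL (forms 9) L9 = true := by decide +kernel
theorem c11 : eqL (forms 11) L11 = true := by decide +kernel
theorem c13 : eqL (forms 13) L13 = true := by decide +kernel
theorem c18 : eqL (forms 18) L18 = true := by decide +kernel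
theorem c22 : eqL (forms 22) L22 = true := by decide +kernel
theorem c23 : eqL (forms 23) L23 = true := by decide +kernel
theorem c26 : eqL (forms 26) L26 = true := by decide +kernel
theorem c29 : eqL (forms 29) L29 = true := by decide +kernel

end Pool.Agent.X3.P4
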