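import Pool.Agent.X3.P4.Defs

/-!
# The search for the triple `(1, 2, 3)`
-/

set_option autoImplicit false
set_option maxRecDepth 100000

namespace Pool.Agent.X3.P4

def L3 : List Fm :=
  [⟨0, 1, 2, 0, false⟩, ⟨0, 2, 1, 0, false⟩, ⟨0, 2, 2, 0, false⟩, ⟨1, 0, 2, 0, false⟩,
   ⟨1, 2, 0, 0, false⟩, ⟨1, 2, 2, 0, false⟩, ⟨2, 0, 1, 0, false⟩, ⟨2, 0, 2, 0, false⟩,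
   ⟨2, 1, 0, 0, false⟩, ⟨2, 1, 2, 0, false⟩, ⟨2, 2, 0, 0, false⟩, ⟨2, 2, 1, 0, false⟩]

def L6 : List Fm :=
  [⟨0, 2, 4, 0, false⟩, ⟨0, 4, 2, 0, false⟩, ⟨0, 4, 4, 0, false⟩, ⟨1, 1, 3, 0, false⟩,
   ⟨1, 1, 5, 0, false⟩, ⟨1, 3, 1, 0, false⟩, ⟨1, 3, 5, 0, false⟩, ⟨1, 5, 1, 0, false⟩,
   ⟨1, 5, 3, 0, false⟩, ⟨2, 0, 4, 0, false⟩, ⟨2, 4, 0, 0, false⟩, ⟨2, 4, 4, 0, false⟩,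
   ⟨3, 1, 1, 0, false⟩, ⟨3, 1, 5, 0, false⟩, ⟨3, 5, 1, 0, false⟩, ⟨4, 0, 2, 0, false⟩,
   ⟨4, 0, 4, 0, false⟩, ⟨4, 2, 0, 0, false⟩, ⟨4, 2, 4, 0, false⟩, ⟨4, 4, 0, 0, false⟩,
   ⟨4, 4, 2, 0, false⟩, ⟨5, 1, 1, 0, false⟩, ⟨5, 1, 3, 0, false⟩, ⟨5, 3, 1, 0, false⟩]

def L7 : List Fm :=
  [⟨0, 2, 3, 0, false⟩, ⟨0, 2, 6, 0, false⟩, ⟨0, 3, 2, 0, false⟩, ⟨0, 6, 2, 0, false⟩,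
   ⟨1, 4, 4, 0, false⟩, ⟨2, 0, 3, 0, false⟩, ⟨2, 0, 6, 0, false⟩, ⟨2, 2, 4, 0, false⟩,
   ⟨2, 2, 5, 0, false⟩, ⟨2, 3, 0, 0, false⟩, ⟨2, 3, 6, 0, false⟩, ⟨2, 4, 2, 0, false⟩,
   ⟨2, 4, 5, 0, false⟩, ⟨2, 5, 2, 0, false⟩, ⟨2, 5, 4, 0, false⟩, ⟨2, 6, 0, 0, false⟩,
   ⟨2, 6, 3, 0, false⟩, ⟨3, 0, 2, 0, false⟩, ⟨3, 2, 0, 0, false⟩, ⟨3, 2, 6, 0, false⟩,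
   ⟨3, 6, 2, 0, false⟩, ⟨4, 1, 4, 0, false⟩, ⟨4, 2, 2, 0, false⟩, ⟨4, 2, 5, 0, false⟩,
   ⟨4, 4, 1, 0, false⟩, ⟨4, 4, 4, 0, false⟩, ⟨4, 5, 2, 0, false⟩, ⟨5, 2, 2, 0, false⟩,
   ⟨5, 2, 4, 0, false⟩, ⟨5, 4, 2, 0, false⟩, ⟨6, 0, 2, 0, false⟩, ⟨6, 2, 0, 0, false⟩,
   ⟨6, 2, 3, 0, false⟩, ⟨6, 3, 2, 0, false⟩]

def L9 : List Fm :=
  [⟨0, 1, 4, 0, false⟩, ⟨0, 1, 8, 0, false⟩, ⟨0, 4, 1, 0, false⟩, ⟨0, 4, 4, 0, false⟩,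
   ⟨0, 4, 7, 0, false⟩, ⟨0, 4, 8, 0, false⟩, ⟨0, 7, 4, 0, false⟩, ⟨0, 8, 1, 0, false⟩,
   ⟨0, 8, 4, 0, false⟩, ⟨1, 0, 4, 0, false⟩, ⟨1, 0, 8, 0, false⟩, ⟨1, 4, 0, 0, false⟩,
   ⟨1, 4, 8, 0, false⟩, ⟨1, 8, 0, 0, false⟩, ⟨1, 8, 4, 0, false⟩, ⟨2, 2, 3, 0, false⟩,
   ⟨2, 2, 8, 0, false⟩, ⟨2, 3, 2, 0, false⟩, ⟨2, 3, 8, 0, false⟩, ⟨2, 4, 5, 0, false⟩,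
   ⟨2, 4, 6, 0, false⟩, ⟨2, 5, 4, 0, false⟩, ⟨2, 5, 6, 0, false⟩, ⟨2, 6, 4, 0, false⟩,
   ⟨2, 6, 5, 0, false⟩, ⟨2, 8, 2, 0, false⟩, ⟨2, 8, 3, 0, false⟩, ⟨3, 2, 2, 0, false⟩,
   ⟨3, 2, 8, 0, false⟩, ⟨3, 8, 2, 0, false⟩, ⟨4, 0, 1, 0, false⟩, ⟨4, 0, 4, 0, false⟩,
   ⟨4, 0, 7, 0, false⟩, ⟨4, 0, 8, 0, false⟩, ⟨4, 1, 0, 0, false⟩, ⟨4, 1, 8, 0, false⟩,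
   ⟨4, 2, 5, 0, false⟩, ⟨4, 2, 6, 0, false⟩, ⟨4, 4, 0, 0, false⟩, ⟨4, 4, 7, 0, false⟩,
   ⟨4, 5, 2, 0, false⟩, ⟨4, 5, 6, 0, false⟩, ⟨4, 6, 2, 0, false⟩, ⟨4, 6, 5, 0, false⟩,
   ⟨4, 7, 0, 0, false⟩, ⟨4, 7, 4, 0, false⟩, ⟨4, 8, 0, 0, false⟩, ⟨4, 8, 1, 0, false⟩,
   ⟨5, 2, 4, 0, false⟩, ⟨5, 2, 6, 0, false⟩, ⟨5, 4, 2, 0, false⟩, ⟨5, 4, 6, 0, false⟩,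
   ⟨5, 6, 2, 0, false⟩, ⟨5, 6, 4, 0, false⟩, ⟨6, 2, 4, 0, false⟩, ⟨6, 2, 5, 0, false⟩,
   ⟨6, 4, 2, 0, false⟩, ⟨6, 4, 5, 0, false⟩, ⟨6, 5, 2, 0, false⟩, ⟨6, 5, 4, 0, false⟩,
   ⟨7, 0, 4, 0, false⟩, ⟨7, 4, 0, 0, false⟩, ⟨7, 4, 4, 0, false⟩, ⟨8, 0, 1, 0, false⟩,
   ⟨8, 0, 4, 0, false⟩, ⟨8, 1, 0, 0, false⟩, ⟨8, 1, 4, 0, false⟩, ⟨8, 2, 2, 0, false⟩,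
   ⟨8, 2, 3, 0, false⟩, ⟨8, 3, 2, 0, false⟩, ⟨8, 4, 0, 0, false⟩, ⟨8, 4, 1, 0, false⟩]

def L11 : List Fm :=
  [⟨0, 2, 6, 0, false⟩, ⟨0, 2, 9, 0, false⟩, ⟨0, 6, 2, 0, false⟩, ⟨0, 6, 7, 0, false⟩,
   ⟨0, 7, 6, 0, false⟩, ⟨0, 9, 2, 0, false⟩, ⟨1, 2, 4, 0, false⟩, ⟨1, 2, 10, 0, false⟩,
   ⟨1, 4, 2, 0, false⟩, ⟨1, 4, 10, 0, false⟩, ⟨1, 10, 2, 0, false⟩, ⟨1, 10, 4, 0, false⟩,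
   ⟨2, 0, 6, 0, false⟩, ⟨2, 0, 9, 0, false⟩, ⟨2, 1, 4, 0, false⟩, ⟨2, 1, 10, 0, false⟩,
   ⟨2, 2, 7, 0, false⟩, ⟨2, 2, 8, 0, false⟩, ⟨2, 4, 1, 0, false⟩, ⟨2, 4, 10, 0, false⟩,
   ⟨2, 6, 0, 0, false⟩, ⟨2, 6, 9, 0, false⟩, ⟨2, 7, 2, 0, false⟩, ⟨2, 7, 8, 0, false⟩,
   ⟨2, 8, 2, 0, false⟩, ⟨2, 8, 7, 0, false⟩, ⟨2, 9, 0, 0, false⟩, ⟨2, 9, 6, 0, false⟩,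
   ⟨2, 10, 1, 0, false⟩, ⟨2, 10, 4, 0, false⟩, ⟨4, 1, 2, 0, false⟩, ⟨4, 1, 10, 0, false⟩,
   ⟨4, 2, 1, 0, false⟩, ⟨4, 2, 10, 0, false⟩, ⟨4, 4, 5, 0, false⟩, ⟨4, 4, 8, 0, false⟩,
   ⟨4, 5, 4, 0, false⟩, ⟨4, 5, 8, 0, false⟩, ⟨4, 8, 4, 0, false⟩, ⟨4, 8, 5, 0, false⟩,
   ⟨4, 10, 1, 0, false⟩, ⟨4, 10, 2, 0, false⟩, ⟨5, 4, 4, 0, false⟩, ⟨5, 4, 8, 0, false⟩,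
   ⟨5, 8, 4, 0, false⟩, ⟨6, 0, 2, 0, false⟩, ⟨6, 0, 7, 0, false⟩, ⟨6, 2, 0, 0, false⟩,
   ⟨6, 2, 9, 0, false⟩, ⟨6, 6, 7, 0, false⟩, ⟨6, 7, 0, 0, false⟩, ⟨6, 7, 6, 0, false⟩,
   ⟨6, 9, 2, 0, false⟩, ⟨7, 0, 6, 0, false⟩, ⟨7, 2, 2, 0, false⟩, ⟨7, 2, 8, 0, false⟩,
   ⟨7, 6, 0, 0, false⟩, ⟨7, 6, 6, 0, false⟩, ⟨7, 8, 2, 0, false⟩, ⟨8, 2, 2, 0, false⟩,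
   ⟨8, 2, 7, 0, false⟩, ⟨8, 4, 4, 0, false⟩, ⟨8, 4, 5, 0, false⟩, ⟨8, 5, 4, 0, false⟩,
   ⟨8, 7, 2, 0, false⟩, ⟨9, 0, 2, 0, false⟩, ⟨9, 2, 0, 0, false⟩, ⟨9, 2, 6, 0, false⟩,
   ⟨9, 6, 2, 0, false⟩, ⟨10, 1, 2, 0, false⟩, ⟨10, 1, 4, 0, false⟩, ⟨10, 2, 1, 0, false⟩,
   ⟨10, 2, 4, 0, false⟩, ⟨10, 4, 1, 0, false⟩, ⟨10, 4, 2, 0, false⟩]

def L13 : List Fm :=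
  [⟨0, 3, 4, 0, false⟩, ⟨0, 4, 3, 0, false⟩, ⟨0, 4, 12, 0, false⟩, ⟨0, 5, 12, 0, false⟩,
   ⟨0, 12, 4, 0, false⟩, ⟨0, 12, 5, 0, false⟩, ⟨1, 2, 8, 0, false⟩, ⟨1, 2, 10, 0, false⟩,
   ⟨1, 8, 2, 0, false⟩, ⟨1, 8, 10, 0, false⟩, ⟨1, 10, 2, 0, false⟩, ⟨1, 10, 8, 0, false⟩,
   ⟨2, 1, 8, 0, false⟩, ⟨2, 1, 10, 0, false⟩, ⟨2, 4, 7, 0, false⟩, ⟨2, 4, 10, 0, false⟩,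
   ⟨2, 7, 4, 0, false⟩, ⟨2, 7, 10, 0, false⟩, ⟨2, 8, 1, 0, false⟩, ⟨2, 8, 10, 0, false⟩,
   ⟨2, 10, 1, 0, false⟩, ⟨2, 10, 4, 0, false⟩, ⟨2, 10, 7, 0, false⟩, ⟨2, 10, 8, 0, false⟩,
   ⟨3, 0, 4, 0, false⟩, ⟨3, 4, 0, 0, false⟩, ⟨3, 4, 12, 0, false⟩, ⟨3, 12, 4, 0, false⟩,
   ⟨4, 0, 3, 0, false⟩, ⟨4, 0, 12, 0, false⟩, ⟨4, 2, 7, 0, false⟩, ⟨4, 2, 10, 0, false⟩,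
   ⟨4, 3, 0, 0, false⟩, ⟨4, 3, 12, 0, false⟩, ⟨4, 4, 4, 0, false⟩, ⟨4, 4, 11, 0, false⟩,
   ⟨4, 5, 8, 0, false⟩, ⟨4, 6, 6, 0, false⟩, ⟨4, 6, 9, 0, false⟩, ⟨4, 7, 2, 0, false⟩,
   ⟨4, 7, 10, 0, false⟩, ⟨4, 8, 5, 0, false⟩, ⟨4, 8, 8, 0, false⟩, ⟨4, 9, 6, 0, false⟩,
   ⟨4, 10, 2, 0, false⟩, ⟨4, 10, 7, 0, false⟩, ⟨4, 11, 4, 0, false⟩, ⟨4, 12, 0, 0, false⟩,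
   ⟨4, 12, 3, 0, false⟩, ⟨5, 0, 12, 0, false⟩, ⟨5, 4, 8, 0, false⟩, ⟨5, 8, 4, 0, false⟩,
   ⟨5, 8, 8, 0, false⟩, ⟨5, 12, 0, 0, false⟩, ⟨6, 4, 6, 0, false⟩, ⟨6, 4, 9, 0, false⟩,
   ⟨6, 6, 4, 0, false⟩, ⟨6, 9, 4, 0, false⟩, ⟨7, 2, 4, 0, false⟩, ⟨7, 2, 10, 0, false⟩,
   ⟨7, 4, 2, 0, false⟩, ⟨7, 4, 10, 0, false⟩, ⟨7, 10, 2, 0, false⟩, ⟨7, 10, 4, 0, false⟩,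
   ⟨8, 1, 2, 0, false⟩, ⟨8, 1, 10, 0, false⟩, ⟨8, 2, 1, 0, false⟩, ⟨8, 2, 10, 0, false⟩,
   ⟨8, 4, 5, 0, false⟩, ⟨8, 4, 8, 0, false⟩, ⟨8, 5, 4, 0, false⟩, ⟨8, 5, 8, 0, false⟩,
   ⟨8, 8, 4, 0, false⟩, ⟨8, 8, 5, 0, false⟩, ⟨8, 10, 1, 0, false⟩, ⟨8, 10, 2, 0, false⟩,
   ⟨9, 4, 6, 0, false⟩, ⟨9, 6, 4, 0, false⟩, ⟨10, 1, 2, 0, false⟩, ⟨10, 1, 8, 0, false⟩,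
   ⟨10, 2, 1, 0, false⟩, ⟨10, 2, 4, 0, false⟩, ⟨10, 2, 7, 0, false⟩, ⟨10, 2, 8, 0, false⟩,
   ⟨10, 4, 2, 0, false⟩, ⟨10, 4, 7, 0, false⟩, ⟨10, 7, 2, 0, false⟩, ⟨10, 7, 4, 0, false⟩,
   ⟨10, 8, 1, 0, false⟩, ⟨10, 8, 2, 0, false⟩, ⟨11, 4, 4, 0, false⟩, ⟨12, 0, 4, 0, false⟩,
   ⟨12, 0, 5, 0, false⟩, ⟨12, 3, 4, 0, false⟩, ⟨12, 4, 0, 0, false⟩, ⟨12, 4, 3, 0, false⟩,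
   ⟨12, 5, 0, 0, false⟩]

def L18 : List Fm :=
  [⟨0, 2, 8, 0, false⟩, ⟨0, 2, 16, 0, false⟩, ⟨0, 8, 2, 0, false⟩, ⟨0, 8, 8, 0, false⟩,
   ⟨0, 8, 14, 0, false⟩, ⟨0, 8, 16, 0, false⟩, ⟨0, 14, 8, 0, false⟩, ⟨0, 16, 2, 0, false⟩,
   ⟨0, 16, 8, 0, false⟩, ⟨1, 3, 5, 0, false⟩, ⟨1, 3, 17, 0, false⟩, ⟨1, 5, 3, 0, false⟩,
   ⟨1, 5, 17, 0, false⟩, ⟨1, 7, 7, 0, false⟩, ⟨1, 7, 15, 0, false⟩, ⟨1, 9, 11, 0, false⟩,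
   ⟨1, 11, 9, 0, false⟩, ⟨1, 11, 11, 0, false⟩, ⟨1, 15, 7, 0, false⟩, ⟨1, 17, 3, 0, false⟩,
   ⟨1, 17, 5, 0, false⟩, ⟨2, 0, 8, 0, false⟩, ⟨2, 0, 16, 0, false⟩, ⟨2, 8, 0, 0, false⟩,
   ⟨2, 8, 16, 0, false⟩, ⟨2, 16, 0, 0, false⟩, ⟨2, 16, 8, 0, false⟩, ⟨3, 1, 5, 0, false⟩,
   ⟨3, 1, 17, 0, false⟩, ⟨3, 5, 1, 0, false⟩, ⟨3, 5, 11, 0, false⟩, ⟨3, 5, 13, 0, false⟩,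
   ⟨3, 5, 17, 0, false⟩, ⟨3, 11, 5, 0, false⟩, ⟨3, 11, 13, 0, false⟩, ⟨3, 13, 5, 0, false⟩,
   ⟨3, 13, 11, 0, false⟩, ⟨3, 17, 1, 0, false⟩, ⟨3, 17, 5, 0, false⟩, ⟨4, 4, 6, 0, false⟩,
   ⟨4, 4, 16, 0, false⟩, ⟨4, 6, 4, 0, false⟩, ⟨4, 6, 16, 0, false⟩, ⟨4, 8, 10, 0, false⟩,
   ⟨4, 8, 12, 0, false⟩, ⟨4, 10, 8, 0, false⟩, ⟨4, 10, 12, 0, false⟩, ⟨4, 12, 8, 0, false⟩,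
   ⟨4, 12, 10, 0, false⟩, ⟨4, 16, 4, 0, false⟩, ⟨4, 16, 6, 0, false⟩, ⟨5, 1, 3, 0, false⟩,
   ⟨5, 1, 17, 0, false⟩, ⟨5, 3, 1, 0, false⟩, ⟨5, 3, 11, 0, false⟩, ⟨5, 3, 13, 0, false⟩,
   ⟨5, 3, 17, 0, false⟩, ⟨5, 5, 7, 0, false⟩, ⟨5, 7, 5, 0, false⟩, ⟨5, 7, 9, 0, false⟩,
   ⟨5, 7, 13, 0, false⟩, ⟨5, 7, 15, 0, false⟩, ⟨5, 9, 7, 0, false⟩, ⟨5, 9, 13, 0, false⟩,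
   ⟨5, 11, 3, 0, false⟩, ⟨5, 11, 13, 0, false⟩, ⟨5, 13, 3, 0, false⟩, ⟨5, 13, 7, 0, false⟩,
   ⟨5, 13, 9, 0, false⟩, ⟨5, 13, 11, 0, false⟩, ⟨5, 15, 7, 0, false⟩, ⟨5, 17, 1, 0, false⟩,
   ⟨5, 17, 3, 0, false⟩, ⟨6, 4, 4, 0, false⟩, ⟨6, 4, 16, 0, false⟩, ⟨6, 16, 4, 0, false⟩,
   ⟨7, 1, 7, 0, false⟩, ⟨7, 1, 15, 0, false⟩, ⟨7, 5, 5, 0, false⟩, ⟨7, 5, 9, 0, false⟩,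
   ⟨7, 5, 13, 0, false⟩, ⟨7, 5, 15, 0, false⟩, ⟨7, 7, 1, 0, false⟩, ⟨7, 7, 15, 0, false⟩,
   ⟨7, 9, 5, 0, false⟩, ⟨7, 9, 13, 0, false⟩, ⟨7, 13, 5, 0, false⟩, ⟨7, 13, 9, 0, false⟩,
   ⟨7, 15, 1, 0, false⟩, ⟨7, 15, 5, 0, false⟩, ⟨7, 15, 7, 0, false⟩, ⟨8, 0, 2, 0, false⟩,
   ⟨8, 0, 8, 0, false⟩, ⟨8, 0, 14, 0, false⟩, ⟨8, 0, 16, 0, false⟩, ⟨8, 2, 0, 0, false⟩,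
   ⟨8, 2, 16, 0, false⟩, ⟨8, 4, 10, 0, false⟩, ⟨8, 4, 12, 0, false⟩, ⟨8, 8, 0, 0, false⟩,
   ⟨8, 8, 14, 0, false⟩, ⟨8, 10, 4, 0, false⟩, ⟨8, 10, 12, 0, false⟩, ⟨8, 12, 4, 0, false⟩,
   ⟨8, 12, 10, 0, false⟩, ⟨8, 14, 0, 0, false⟩, ⟨8, 14, 8, 0, false⟩, ⟨8, 16, 0, 0, false⟩,
   ⟨8, 16, 2, 0, false⟩, ⟨9, 1, 11, 0, false⟩, ⟨9, 5, 7, 0, false⟩, ⟨9, 5, 13, 0, false⟩,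
   ⟨9, 7, 5, 0, false⟩, ⟨9, 7, 13, 0, false⟩, ⟨9, 11, 1, 0, false⟩, ⟨9, 11, 11, 0, false⟩,
   ⟨9, 13, 5, 0, false⟩, ⟨9, 13, 7, 0, false⟩, ⟨10, 4, 8, 0, false⟩, ⟨10, 4, 12, 0, false⟩,
   ⟨10, 8, 4, 0, false⟩, ⟨10, 8, 12, 0, false⟩, ⟨10, 12, 4, 0, false⟩, ⟨10, 12, 8, 0, false⟩,
   ⟨11, 1, 9, 0, false⟩, ⟨11, 1, 11, 0, false⟩, ⟨11, 3, 5, 0, false⟩, ⟨11, 3, 13, 0, false⟩,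
   ⟨11, 5, 3, 0, false⟩, ⟨11, 5, 13, 0, false⟩, ⟨11, 9, 1, 0, false⟩, ⟨11, 9, 11, 0, false⟩,
   ⟨11, 11, 1, 0, false⟩, ⟨11, 11, 9, 0, false⟩, ⟨11, 13, 3, 0, false⟩, ⟨11, 13, 5, 0, false⟩,
   ⟨12, 4, 8, 0, false⟩, ⟨12, 4, 10, 0, false⟩, ⟨12, 8, 4, 0, false⟩, ⟨12, 8, 10, 0, false⟩,
   ⟨12, 10, 4, 0, false⟩, ⟨12, 10, 8, 0, false⟩, ⟨13, 3, 5, 0, false⟩, ⟨13, 3, 11, 0, false⟩,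
   ⟨13, 5, 3, 0, false⟩, ⟨13, 5, 7, 0, false⟩, ⟨13, 5, 9, 0, false⟩, ⟨13, 5, 11, 0, false⟩,
   ⟨13, 7, 5, 0, false⟩, ⟨13, 7, 9, 0, false⟩, ⟨13, 9, 5, 0, false⟩, ⟨13, 9, 7, 0, false⟩,
   ⟨13, 11, 3, 0, false⟩, ⟨13, 11, 5, 0, false⟩, ⟨14, 0, 8, 0, false⟩, ⟨14, 8, 0, 0, false⟩,
   ⟨14, 8, 8, 0, false⟩, ⟨15, 1, 7, 0, false⟩, ⟨15, 5, 7, 0, false⟩, ⟨15, 7, 1, 0, false⟩,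
   ⟨15, 7, 5, 0, false⟩, ⟨15, 7, 7, 0, false⟩, ⟨16, 0, 2, 0, false⟩, ⟨16, 0, 8, 0, false⟩,
   ⟨16, 2, 0, 0, false⟩, ⟨16, 2, 8, 0, false⟩, ⟨16, 4, 4, 0, false⟩, ⟨16, 4, 6, 0, false⟩,
   ⟨16, 6, 4, 0, false⟩, ⟨16, 8, 0, 0, false⟩, ⟨16, 8, 2, 0, false⟩, ⟨17, 1, 3, 0, false⟩,
   ⟨17, 1, 5, 0, false⟩, ⟨17, 3, 1, 0, false⟩, ⟨17, 3, 5, 0, false⟩, ⟨17, 5, 1, 0, false⟩,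
   ⟨17, 5, 3, 0, false⟩]

def L22 : List Fm :=
  [⟨0, 4, 12, 0, false⟩, ⟨0, 4, 18, 0, false⟩, ⟨0, 12, 4, 0, false⟩, ⟨0, 12, 14, 0, false⟩,
   ⟨0, 14, 12, 0, false⟩, ⟨0, 18, 4, 0, false⟩, ⟨1, 1, 11, 0, false⟩, ⟨1, 1, 19, 0, false⟩,
   ⟨1, 5, 13, 0, false⟩, ⟨1, 5, 17, 0, false⟩, ⟨1, 11, 1, 0, false⟩, ⟨1, 11, 19, 0, false⟩,
   ⟨1, 13, 5, 0, false⟩, ⟨1, 13, 17, 0, false⟩, ⟨1, 17, 5, 0, false⟩, ⟨1, 17, 13, 0, false⟩,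
   ⟨1, 19, 1, 0, false⟩, ⟨1, 19, 11, 0, false⟩, ⟨2, 4, 8, 0, false⟩, ⟨2, 4, 20, 0, false⟩,
   ⟨2, 8, 4, 0, false⟩, ⟨2, 8, 20, 0, false⟩, ⟨2, 20, 4, 0, false⟩, ⟨2, 20, 8, 0, false⟩,
   ⟨3, 3, 5, 0, false⟩, ⟨3, 5, 3, 0, false⟩, ⟨3, 5, 15, 0, false⟩, ⟨3, 5, 21, 0, false⟩,
   ⟨3, 9, 13, 0, false⟩, ⟨3, 13, 9, 0, false⟩, ⟨3, 13, 15, 0, false⟩, ⟨3, 15, 5, 0, false⟩,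
   ⟨3, 15, 13, 0, false⟩, ⟨3, 21, 5, 0, false⟩, ⟨4, 0, 12, 0, false⟩, ⟨4, 0, 18, 0, false⟩,
   ⟨4, 2, 8, 0, false⟩, ⟨4, 2, 20, 0, false⟩, ⟨4, 4, 14, 0, false⟩, ⟨4, 4, 16, 0, false⟩,
   ⟨4, 8, 2, 0, false⟩, ⟨4, 8, 20, 0, false⟩, ⟨4, 12, 0, 0, false⟩, ⟨4, 12, 18, 0, false⟩,
   ⟨4, 14, 4, 0, false⟩, ⟨4, 14, 16, 0, false⟩, ⟨4, 16, 4, 0, false⟩, ⟨4, 16, 14, 0, false⟩,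
   ⟨4, 18, 0, 0, false⟩, ⟨4, 18, 12, 0, false⟩, ⟨4, 20, 2, 0, false⟩, ⟨4, 20, 8, 0, false⟩,
   ⟨5, 1, 13, 0, false⟩, ⟨5, 1, 17, 0, false⟩, ⟨5, 3, 3, 0, false⟩, ⟨5, 3, 15, 0, false⟩,
   ⟨5, 3, 21, 0, false⟩, ⟨5, 7, 7, 0, false⟩, ⟨5, 7, 11, 0, false⟩, ⟨5, 7, 17, 0, false⟩,
   ⟨5, 7, 19, 0, false⟩, ⟨5, 11, 7, 0, false⟩, ⟨5, 11, 13, 0, false⟩, ⟨5, 11, 17, 0, false⟩,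
   ⟨5, 13, 1, 0, false⟩, ⟨5, 13, 11, 0, false⟩, ⟨5, 13, 13, 0, false⟩, ⟨5, 13, 17, 0, false⟩,
   ⟨5, 15, 3, 0, false⟩, ⟨5, 17, 1, 0, false⟩, ⟨5, 17, 7, 0, false⟩, ⟨5, 17, 11, 0, false⟩,
   ⟨5, 17, 13, 0, false⟩, ⟨5, 19, 7, 0, false⟩, ⟨5, 21, 3, 0, false⟩, ⟨7, 5, 7, 0, false⟩,
   ⟨7, 5, 11, 0, false⟩, ⟨7, 5, 17, 0, false⟩, ⟨7, 5, 19, 0, false⟩, ⟨7, 7, 5, 0, false⟩,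
   ⟨7, 7, 19, 0, false⟩, ⟨7, 11, 5, 0, false⟩, ⟨7, 11, 17, 0, false⟩, ⟨7, 17, 5, 0, false⟩,
   ⟨7, 17, 11, 0, false⟩, ⟨7, 19, 5, 0, false⟩, ⟨7, 19, 7, 0, false⟩, ⟨8, 2, 4, 0, false⟩,
   ⟨8, 2, 20, 0, false⟩, ⟨8, 4, 2, 0, false⟩, ⟨8, 4, 20, 0, false⟩, ⟨8, 8, 10, 0, false⟩,
   ⟨8, 8, 16, 0, false⟩, ⟨8, 10, 8, 0, false⟩, ⟨8, 10, 16, 0, false⟩, ⟨8, 16, 8, 0, false⟩,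
   ⟨8, 16, 10, 0, false⟩, ⟨8, 20, 2, 0, false⟩, ⟨8, 20, 4, 0, false⟩, ⟨9, 3, 13, 0, false⟩,
   ⟨9, 13, 3, 0, false⟩, ⟨9, 13, 15, 0, false⟩, ⟨9, 15, 13, 0, false⟩, ⟨10, 8, 8, 0, false⟩,
   ⟨10, 8, 16, 0, false⟩, ⟨10, 16, 8, 0, false⟩, ⟨11, 1, 1, 0, false⟩, ⟨11, 1, 19, 0, false⟩,
   ⟨11, 5, 7, 0, false⟩, ⟨11, 5, 13, 0, false⟩, ⟨11, 5, 17, 0, false⟩, ⟨11, 7, 5, 0, false⟩,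
   ⟨11, 7, 17, 0, false⟩, ⟨11, 13, 5, 0, false⟩, ⟨11, 13, 13, 0, false⟩, ⟨11, 17, 5, 0, false⟩,
   ⟨11, 17, 7, 0, false⟩, ⟨11, 19, 1, 0, false⟩, ⟨12, 0, 4, 0, false⟩, ⟨12, 0, 14, 0, false⟩,
   ⟨12, 4, 0, 0, false⟩, ⟨12, 4, 18, 0, false⟩, ⟨12, 12, 14, 0, false⟩, ⟨12, 14, 0, 0, false⟩,
   ⟨12, 14, 12, 0, false⟩, ⟨12, 18, 4, 0, false⟩, ⟨13, 1, 5, 0, false⟩, ⟨13, 1, 17, 0, false⟩,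
   ⟨13, 3, 9, 0, false⟩, ⟨13, 3, 15, 0, false⟩, ⟨13, 5, 1, 0, false⟩, ⟨13, 5, 11, 0, false⟩,
   ⟨13, 5, 13, 0, false⟩, ⟨13, 5, 17, 0, false⟩, ⟨13, 9, 3, 0, false⟩, ⟨13, 9, 15, 0, false⟩,
   ⟨13, 11, 5, 0, false⟩, ⟨13, 11, 13, 0, false⟩, ⟨13, 13, 5, 0, false⟩, ⟨13, 13, 11, 0, false⟩,
   ⟨13, 15, 3, 0, false⟩, ⟨13, 15, 9, 0, false⟩, ⟨13, 17, 1, 0, false⟩, ⟨13, 17, 5, 0, false⟩,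
   ⟨14, 0, 12, 0, false⟩, ⟨14, 4, 4, 0, false⟩, ⟨14, 4, 16, 0, false⟩, ⟨14, 12, 0, 0, false⟩,
   ⟨14, 12, 12, 0, false⟩, ⟨14, 16, 4, 0, false⟩, ⟨15, 3, 5, 0, false⟩, ⟨15, 3, 13, 0, false⟩,
   ⟨15, 5, 3, 0, false⟩, ⟨15, 9, 13, 0, false⟩, ⟨15, 13, 3, 0, false⟩, ⟨15, 13, 9, 0, false⟩,
   ⟨16, 4, 4, 0, false⟩, ⟨16, 4, 14, 0, false⟩, ⟨16, 8, 8, 0, false⟩, ⟨16, 8, 10, 0, false⟩,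
   ⟨16, 10, 8, 0, false⟩, ⟨16, 14, 4, 0, false⟩, ⟨17, 1, 5, 0, false⟩, ⟨17, 1, 13, 0, false⟩,
   ⟨17, 5, 1, 0, false⟩, ⟨17, 5, 7, 0, false⟩, ⟨17, 5, 11, 0, false⟩, ⟨17, 5, 13, 0, false⟩,
   ⟨17, 7, 5, 0, false⟩, ⟨17, 7, 11, 0, false⟩, ⟨17, 11, 5, 0, false⟩, ⟨17, 11, 7, 0, false⟩,
   ⟨17, 13, 1, 0, false⟩, ⟨17, 13, 5, 0, false⟩, ⟨18, 0, 4, 0, false⟩, ⟨18, 4, 0, 0, false⟩,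
   ⟨18, 4, 12, 0, false⟩, ⟨18, 12, 4, 0, false⟩, ⟨19, 1, 1, 0, false⟩, ⟨19, 1, 11, 0, false⟩,
   ⟨19, 5, 7, 0, false⟩, ⟨19, 7, 5, 0, false⟩, ⟨19, 7, 7, 0, false⟩, ⟨19, 11, 1, 0, false⟩,
   ⟨20, 2, 4, 0, false⟩, ⟨20, 2, 8, 0, false⟩, ⟨20, 4, 2, 0, false⟩, ⟨20, 4, 8, 0, false⟩,
   ⟨20, 8, 2, 0, false⟩, ⟨20, 8, 4, 0, false⟩, ⟨21, 3, 5, 0, false⟩, ⟨21, 5, 3, 0, false⟩]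

def L23 : List Fm :=
  [⟨0, 3, 14, 0, false⟩, ⟨0, 3, 22, 0, false⟩, ⟨0, 6, 13, 0, false⟩, ⟨0, 6, 22, 0, false⟩,
   ⟨0, 13, 6, 0, false⟩, ⟨0, 13, 18, 0, false⟩, ⟨0, 14, 3, 0, false⟩, ⟨0, 14, 18, 0, false⟩,
   ⟨0, 18, 13, 0, false⟩, ⟨0, 18, 14, 0, false⟩, ⟨0, 22, 3, 0, false⟩, ⟨0, 22, 6, 0, false⟩,
   ⟨1, 4, 16, 0, false⟩, ⟨1, 8, 8, 0, false⟩, ⟨1, 8, 20, 0, false⟩, ⟨1, 16, 4, 0, false⟩,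
   ⟨1, 16, 16, 0, false⟩, ⟨1, 20, 8, 0, false⟩, ⟨2, 2, 11, 0, false⟩, ⟨2, 2, 20, 0, false⟩,
   ⟨2, 4, 5, 0, false⟩, ⟨2, 4, 22, 0, false⟩, ⟨2, 5, 4, 0, false⟩, ⟨2, 5, 10, 0, false⟩,
   ⟨2, 5, 20, 0, false⟩, ⟨2, 5, 22, 0, false⟩, ⟨2, 8, 10, 0, false⟩, ⟨2, 8, 19, 0, false⟩,
   ⟨2, 10, 5, 0, false⟩, ⟨2, 10, 8, 0, false⟩, ⟨2, 10, 13, 0, false⟩, ⟨2, 10, 16, 0, false⟩,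
   ⟨2, 10, 19, 0, false⟩, ⟨2, 10, 20, 0, false⟩, ⟨2, 11, 2, 0, false⟩, ⟨2, 11, 20, 0, false⟩,
   ⟨2, 13, 10, 0, false⟩, ⟨2, 13, 16, 0, false⟩, ⟨2, 16, 10, 0, false⟩, ⟨2, 16, 13, 0, false⟩,
   ⟨2, 19, 8, 0, false⟩, ⟨2, 19, 10, 0, false⟩, ⟨2, 20, 2, 0, false⟩, ⟨2, 20, 5, 0, false⟩,
   ⟨2, 20, 10, 0, false⟩, ⟨2, 20, 11, 0, false⟩, ⟨2, 22, 4, 0, false⟩, ⟨2, 22, 5, 0, false⟩,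
   ⟨3, 0, 14, 0, false⟩, ⟨3, 0, 22, 0, false⟩, ⟨3, 6, 22, 0, false⟩, ⟨3, 14, 0, 0, false⟩,
   ⟨3, 14, 18, 0, false⟩, ⟨3, 18, 14, 0, false⟩, ⟨3, 22, 0, 0, false⟩, ⟨3, 22, 6, 0, false⟩,
   ⟨4, 1, 16, 0, false⟩, ⟨4, 2, 5, 0, false⟩, ⟨4, 2, 22, 0, false⟩, ⟨4, 5, 2, 0, false⟩,
   ⟨4, 5, 22, 0, false⟩, ⟨4, 6, 6, 0, false⟩, ⟨4, 6, 21, 0, false⟩, ⟨4, 7, 8, 0, false⟩,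
   ⟨4, 7, 20, 0, false⟩, ⟨4, 8, 7, 0, false⟩, ⟨4, 8, 20, 0, false⟩, ⟨4, 11, 14, 0, false⟩,
   ⟨4, 12, 12, 0, false⟩, ⟨4, 12, 15, 0, false⟩, ⟨4, 14, 11, 0, false⟩, ⟨4, 14, 14, 0, false⟩,
   ⟨4, 15, 12, 0, false⟩, ⟨4, 16, 1, 0, false⟩, ⟨4, 16, 16, 0, false⟩, ⟨4, 20, 7, 0, false⟩,
   ⟨4, 20, 8, 0, false⟩, ⟨4, 21, 6, 0, false⟩, ⟨4, 22, 2, 0, false⟩, ⟨4, 22, 5, 0, false⟩,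
   ⟨5, 2, 4, 0, false⟩, ⟨5, 2, 10, 0, false⟩, ⟨5, 2, 20, 0, false⟩, ⟨5, 2, 22, 0, false⟩,
   ⟨5, 4, 2, 0, false⟩, ⟨5, 4, 22, 0, false⟩, ⟨5, 6, 12, 0, false⟩, ⟨5, 6, 18, 0, false⟩,
   ⟨5, 10, 2, 0, false⟩, ⟨5, 12, 6, 0, false⟩, ⟨5, 12, 18, 0, false⟩, ⟨5, 18, 6, 0, false⟩,
   ⟨5, 18, 12, 0, false⟩, ⟨5, 20, 2, 0, false⟩, ⟨5, 22, 2, 0, false⟩, ⟨5, 22, 4, 0, false⟩,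
   ⟨6, 0, 13, 0, false⟩, ⟨6, 0, 22, 0, false⟩, ⟨6, 3, 22, 0, false⟩, ⟨6, 4, 6, 0, false⟩,
   ⟨6, 4, 21, 0, false⟩, ⟨6, 5, 12, 0, false⟩, ⟨6, 5, 18, 0, false⟩, ⟨6, 6, 4, 0, false⟩,
   ⟨6, 12, 5, 0, false⟩, ⟨6, 13, 0, 0, false⟩, ⟨6, 13, 18, 0, false⟩, ⟨6, 18, 5, 0, false⟩,
   ⟨6, 18, 13, 0, false⟩, ⟨6, 21, 4, 0, false⟩, ⟨6, 22, 0, 0, false⟩, ⟨6, 22, 3, 0, false⟩,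
   ⟨7, 4, 8, 0, false⟩, ⟨7, 4, 20, 0, false⟩, ⟨7, 8, 4, 0, false⟩, ⟨7, 8, 20, 0, false⟩,
   ⟨7, 20, 4, 0, false⟩, ⟨7, 20, 8, 0, false⟩, ⟨8, 1, 8, 0, false⟩, ⟨8, 1, 20, 0, false⟩,
   ⟨8, 2, 10, 0, false⟩, ⟨8, 2, 19, 0, false⟩, ⟨8, 4, 7, 0, false⟩, ⟨8, 4, 20, 0, false⟩,
   ⟨8, 7, 4, 0, false⟩, ⟨8, 7, 20, 0, false⟩, ⟨8, 8, 1, 0, false⟩, ⟨8, 8, 20, 0, false⟩,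
   ⟨8, 10, 2, 0, false⟩, ⟨8, 10, 13, 0, false⟩, ⟨8, 10, 14, 0, false⟩, ⟨8, 10, 19, 0, false⟩,
   ⟨8, 13, 10, 0, false⟩, ⟨8, 13, 14, 0, false⟩, ⟨8, 14, 10, 0, false⟩, ⟨8, 14, 13, 0, false⟩,
   ⟨8, 19, 2, 0, false⟩, ⟨8, 19, 10, 0, false⟩, ⟨8, 20, 1, 0, false⟩, ⟨8, 20, 4, 0, false⟩,
   ⟨8, 20, 7, 0, false⟩, ⟨8, 20, 8, 0, false⟩, ⟨10, 2, 5, 0, false⟩, ⟨10, 2, 8, 0, false⟩,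
   ⟨10, 2, 13, 0, false⟩, ⟨10, 2, 16, 0, false⟩, ⟨10, 2, 19, 0, false⟩, ⟨10, 2, 20, 0, false⟩,
   ⟨10, 5, 2, 0, false⟩, ⟨10, 8, 2, 0, false⟩, ⟨10, 8, 13, 0, false⟩, ⟨10, 8, 14, 0, false⟩,
   ⟨10, 8, 19, 0, false⟩, ⟨10, 13, 2, 0, false⟩, ⟨10, 13, 8, 0, false⟩, ⟨10, 13, 14, 0, false⟩,
   ⟨10, 13, 16, 0, false⟩, ⟨10, 14, 8, 0, false⟩, ⟨10, 14, 13, 0, false⟩, ⟨10, 16, 2, 0, false⟩,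
   ⟨10, 16, 13, 0, false⟩, ⟨10, 19, 2, 0, false⟩, ⟨10, 19, 8, 0, false⟩, ⟨10, 20, 2, 0, false⟩,
   ⟨11, 2, 2, 0, false⟩, ⟨11, 2, 20, 0, false⟩, ⟨11, 4, 14, 0, false⟩, ⟨11, 14, 4, 0, false⟩,
   ⟨11, 14, 14, 0, false⟩, ⟨11, 20, 2, 0, false⟩, ⟨12, 4, 12, 0, false⟩, ⟨12, 4, 15, 0, false⟩,
   ⟨12, 5, 6, 0, false⟩, ⟨12, 5, 18, 0, false⟩, ⟨12, 6, 5, 0, false⟩, ⟨12, 12, 4, 0, false⟩,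
   ⟨12, 15, 4, 0, false⟩, ⟨12, 18, 5, 0, false⟩, ⟨13, 0, 6, 0, false⟩, ⟨13, 0, 18, 0, false⟩,
   ⟨13, 2, 10, 0, false⟩, ⟨13, 2, 16, 0, false⟩, ⟨13, 6, 0, 0, false⟩, ⟨13, 6, 18, 0, false⟩,
   ⟨13, 8, 10, 0, false⟩, ⟨13, 8, 14, 0, false⟩, ⟨13, 10, 2, 0, false⟩, ⟨13, 10, 8, 0, false⟩,
   ⟨13, 10, 14, 0, false⟩, ⟨13, 10, 16, 0, false⟩, ⟨13, 14, 8, 0, false⟩, ⟨13, 14, 10, 0, false⟩,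
   ⟨13, 16, 2, 0, false⟩, ⟨13, 16, 10, 0, false⟩, ⟨13, 18, 0, 0, false⟩, ⟨13, 18, 6, 0, false⟩,
   ⟨14, 0, 3, 0, false⟩, ⟨14, 0, 18, 0, false⟩, ⟨14, 3, 0, 0, false⟩, ⟨14, 3, 18, 0, false⟩,
   ⟨14, 4, 11, 0, false⟩, ⟨14, 4, 14, 0, false⟩, ⟨14, 8, 10, 0, false⟩, ⟨14, 8, 13, 0, false⟩,
   ⟨14, 10, 8, 0, false⟩, ⟨14, 10, 13, 0, false⟩, ⟨14, 11, 4, 0, false⟩, ⟨14, 11, 14, 0, false⟩,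
   ⟨14, 13, 8, 0, false⟩, ⟨14, 13, 10, 0, false⟩, ⟨14, 14, 4, 0, false⟩, ⟨14, 14, 11, 0, false⟩,
   ⟨14, 18, 0, 0, false⟩, ⟨14, 18, 3, 0, false⟩, ⟨15, 4, 12, 0, false⟩, ⟨15, 12, 4, 0, false⟩,
   ⟨16, 1, 4, 0, false⟩, ⟨16, 1, 16, 0, false⟩, ⟨16, 2, 10, 0, false⟩, ⟨16, 2, 13, 0, false⟩,
   ⟨16, 4, 1, 0, false⟩, ⟨16, 4, 16, 0, false⟩, ⟨16, 10, 2, 0, false⟩, ⟨16, 10, 13, 0, false⟩,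
   ⟨16, 13, 2, 0, false⟩, ⟨16, 13, 10, 0, false⟩, ⟨16, 16, 1, 0, false⟩, ⟨16, 16, 4, 0, false⟩,
   ⟨18, 0, 13, 0, false⟩, ⟨18, 0, 14, 0, false⟩, ⟨18, 3, 14, 0, false⟩, ⟨18, 5, 6, 0, false⟩,
   ⟨18, 5, 12, 0, false⟩, ⟨18, 6, 5, 0, false⟩, ⟨18, 6, 13, 0, false⟩, ⟨18, 12, 5, 0, false⟩,
   ⟨18, 13, 0, 0, false⟩, ⟨18, 13, 6, 0, false⟩, ⟨18, 14, 0, 0, false⟩, ⟨18, 14, 3, 0, false⟩,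
   ⟨19, 2, 8, 0, false⟩, ⟨19, 2, 10, 0, false⟩, ⟨19, 8, 2, 0, false⟩, ⟨19, 8, 10, 0, false⟩,
   ⟨19, 10, 2, 0, false⟩, ⟨19, 10, 8, 0, false⟩, ⟨20, 1, 8, 0, false⟩, ⟨20, 2, 2, 0, false⟩,
   ⟨20, 2, 5, 0, false⟩, ⟨20, 2, 10, 0, false⟩, ⟨20, 2, 11, 0, false⟩, ⟨20, 4, 7, 0, false⟩,
   ⟨20, 4, 8, 0, false⟩, ⟨20, 5, 2, 0, false⟩, ⟨20, 7, 4, 0, false⟩, ⟨20, 7, 8, 0, false⟩,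
   ⟨20, 8, 1, 0, false⟩, ⟨20, 8, 4, 0, false⟩, ⟨20, 8, 7, 0, false⟩, ⟨20, 8, 8, 0, false⟩,
   ⟨20, 10, 2, 0, false⟩, ⟨20, 11, 2, 0, false⟩, ⟨21, 4, 6, 0, false⟩, ⟨21, 6, 4, 0, false⟩,
   ⟨22, 0, 3, 0, false⟩, ⟨22, 0, 6, 0, false⟩, ⟨22, 2, 4, 0, false⟩, ⟨22, 2, 5, 0, false⟩,
   ⟨22, 3, 0, 0, false⟩, ⟨22, 3, 6, 0, false⟩, ⟨22, 4, 2, 0, false⟩, ⟨22, 4, 5, 0, false⟩,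
   ⟨22, 5, 2, 0, false⟩, ⟨22, 5, 4, 0, false⟩, ⟨22, 6, 0, 0, false⟩, ⟨22, 6, 3, 0, false⟩]

def L26 : List Fm :=
  [⟨0, 6, 8, 0, false⟩, ⟨0, 8, 6, 0, false⟩, ⟨0, 8, 24, 0, false⟩, ⟨0, 10, 24, 0, false⟩,
   ⟨0, 24, 8, 0, false⟩, ⟨0, 24, 10, 0, false⟩, ⟨1, 1, 7, 0, false⟩, ⟨1, 1, 25, 0, false⟩,
   ⟨1, 3, 15, 0, false⟩, ⟨1, 3, 21, 0, false⟩, ⟨1, 5, 5, 0, false⟩, ⟨1, 5, 11, 0, false⟩,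
   ⟨1, 5, 17, 0, false⟩, ⟨1, 5, 19, 0, false⟩, ⟨1, 5, 23, 0, false⟩, ⟨1, 5, 25, 0, false⟩,
   ⟨1, 7, 1, 0, false⟩, ⟨1, 7, 25, 0, false⟩, ⟨1, 11, 5, 0, false⟩, ⟨1, 11, 23, 0, false⟩,
   ⟨1, 15, 3, 0, false⟩, ⟨1, 15, 15, 0, false⟩, ⟨1, 15, 21, 0, false⟩, ⟨1, 17, 5, 0, false⟩,
   ⟨1, 17, 19, 0, false⟩, ⟨1, 19, 5, 0, false⟩, ⟨1, 19, 17, 0, false⟩, ⟨1, 21, 3, 0, false⟩,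
   ⟨1, 21, 15, 0, false⟩, ⟨1, 23, 5, 0, false⟩, ⟨1, 23, 11, 0, false⟩, ⟨1, 25, 1, 0, false⟩,
   ⟨1, 25, 5, 0, false⟩, ⟨1, 25, 7, 0, false⟩, ⟨2, 4, 16, 0, false⟩, ⟨2, 4, 20, 0, false⟩,
   ⟨2, 16, 4, 0, false⟩, ⟨2, 16, 20, 0, false⟩, ⟨2, 20, 4, 0, false⟩, ⟨2, 20, 16, 0, false⟩,
   ⟨3, 1, 15, 0, false⟩, ⟨3, 1, 21, 0, false⟩, ⟨3, 9, 19, 0, false⟩, ⟨3, 15, 1, 0, false⟩,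
   ⟨3, 15, 19, 0, false⟩, ⟨3, 19, 9, 0, false⟩, ⟨3, 19, 15, 0, false⟩, ⟨3, 21, 1, 0, false⟩,
   ⟨4, 2, 16, 0, false⟩, ⟨4, 2, 20, 0, false⟩, ⟨4, 8, 14, 0, false⟩, ⟨4, 8, 20, 0, false⟩,
   ⟨4, 14, 8, 0, false⟩, ⟨4, 14, 20, 0, false⟩, ⟨4, 16, 2, 0, false⟩, ⟨4, 16, 20, 0, false⟩,
   ⟨4, 20, 2, 0, false⟩, ⟨4, 20, 8, 0, false⟩, ⟨4, 20, 14, 0, false⟩, ⟨4, 20, 16, 0, false⟩,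
   ⟨5, 1, 5, 0, false⟩, ⟨5, 1, 11, 0, false⟩, ⟨5, 1, 17, 0, false⟩, ⟨5, 1, 19, 0, false⟩,
   ⟨5, 1, 23, 0, false⟩, ⟨5, 1, 25, 0, false⟩, ⟨5, 5, 1, 0, false⟩, ⟨5, 11, 1, 0, false⟩,
   ⟨5, 11, 13, 0, false⟩, ⟨5, 11, 19, 0, false⟩, ⟨5, 11, 23, 0, false⟩, ⟨5, 13, 11, 0, false⟩,
   ⟨5, 13, 19, 0, false⟩, ⟨5, 17, 1, 0, false⟩, ⟨5, 17, 19, 0, false⟩, ⟨5, 19, 1, 0, false⟩,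
   ⟨5, 19, 11, 0, false⟩, ⟨5, 19, 13, 0, false⟩, ⟨5, 19, 17, 0, false⟩, ⟨5, 23, 1, 0, false⟩,
   ⟨5, 23, 11, 0, false⟩, ⟨5, 25, 1, 0, false⟩, ⟨6, 0, 8, 0, false⟩, ⟨6, 8, 0, 0, false⟩,
   ⟨6, 8, 24, 0, false⟩, ⟨6, 24, 8, 0, false⟩, ⟨7, 1, 1, 0, false⟩, ⟨7, 1, 25, 0, false⟩,
   ⟨7, 7, 17, 0, false⟩, ⟨7, 7, 23, 0, false⟩, ⟨7, 13, 13, 0, false⟩, ⟨7, 13, 17, 0, false⟩,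
   ⟨7, 17, 7, 0, false⟩, ⟨7, 17, 13, 0, false⟩, ⟨7, 17, 17, 0, false⟩, ⟨7, 23, 7, 0, false⟩,
   ⟨7, 25, 1, 0, false⟩, ⟨8, 0, 6, 0, false⟩, ⟨8, 0, 24, 0, false⟩, ⟨8, 4, 14, 0, false⟩,
   ⟨8, 4, 20, 0, false⟩, ⟨8, 6, 0, 0, false⟩, ⟨8, 6, 24, 0, false⟩, ⟨8, 8, 8, 0, false⟩,
   ⟨8, 8, 22, 0, false⟩, ⟨8, 10, 16, 0, false⟩, ⟨8, 12, 12, 0, false⟩, ⟨8, 12, 18, 0, false⟩,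
   ⟨8, 14, 4, 0, false⟩, ⟨8, 14, 20, 0, false⟩, ⟨8, 16, 10, 0, false⟩, ⟨8, 16, 16, 0, false⟩,
   ⟨8, 18, 12, 0, false⟩, ⟨8, 20, 4, 0, false⟩, ⟨8, 20, 14, 0, false⟩, ⟨8, 22, 8, 0, false⟩,
   ⟨8, 24, 0, 0, false⟩, ⟨8, 24, 6, 0, false⟩, ⟨9, 3, 19, 0, false⟩, ⟨9, 9, 17, 0, false⟩,
   ⟨9, 15, 17, 0, false⟩, ⟨9, 15, 19, 0, false⟩, ⟨9, 17, 9, 0, false⟩, ⟨9, 17, 15, 0, false⟩,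
   ⟨9, 19, 3, 0, false⟩, ⟨9, 19, 15, 0, false⟩, ⟨10, 0, 24, 0, false⟩, ⟨10, 8, 16, 0, false⟩,
   ⟨10, 16, 8, 0, false⟩, ⟨10, 16, 16, 0, false⟩, ⟨10, 24, 0, 0, false⟩, ⟨11, 1, 5, 0, false⟩,
   ⟨11, 1, 23, 0, false⟩, ⟨11, 5, 1, 0, false⟩, ⟨11, 5, 13, 0, false⟩, ⟨11, 5, 19, 0, false⟩,
   ⟨11, 5, 23, 0, false⟩, ⟨11, 13, 5, 0, false⟩, ⟨11, 13, 19, 0, false⟩, ⟨11, 19, 5, 0, false⟩,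
   ⟨11, 19, 13, 0, false⟩, ⟨11, 23, 1, 0, false⟩, ⟨11, 23, 5, 0, false⟩, ⟨12, 8, 12, 0, false⟩,
   ⟨12, 8, 18, 0, false⟩, ⟨12, 12, 8, 0, false⟩, ⟨12, 18, 8, 0, false⟩, ⟨13, 5, 11, 0, false⟩,
   ⟨13, 5, 19, 0, false⟩, ⟨13, 7, 13, 0, false⟩, ⟨13, 7, 17, 0, false⟩, ⟨13, 11, 5, 0, false⟩,
   ⟨13, 11, 19, 0, false⟩, ⟨13, 13, 7, 0, false⟩, ⟨13, 13, 17, 0, false⟩, ⟨13, 17, 7, 0, false⟩,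
   ⟨13, 17, 13, 0, false⟩, ⟨13, 19, 5, 0, false⟩, ⟨13, 19, 11, 0, false⟩, ⟨14, 4, 8, 0, false⟩,
   ⟨14, 4, 20, 0, false⟩, ⟨14, 8, 4, 0, false⟩, ⟨14, 8, 20, 0, false⟩, ⟨14, 20, 4, 0, false⟩,
   ⟨14, 20, 8, 0, false⟩, ⟨15, 1, 3, 0, false⟩, ⟨15, 1, 15, 0, false⟩, ⟨15, 1, 21, 0, false⟩,
   ⟨15, 3, 1, 0, false⟩, ⟨15, 3, 19, 0, false⟩, ⟨15, 9, 17, 0, false⟩, ⟨15, 9, 19, 0, false⟩,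
   ⟨15, 15, 1, 0, false⟩, ⟨15, 17, 9, 0, false⟩, ⟨15, 19, 3, 0, false⟩, ⟨15, 19, 9, 0, false⟩,
   ⟨15, 21, 1, 0, false⟩, ⟨16, 2, 4, 0, false⟩, ⟨16, 2, 20, 0, false⟩, ⟨16, 4, 2, 0, false⟩,
   ⟨16, 4, 20, 0, false⟩, ⟨16, 8, 10, 0, false⟩, ⟨16, 8, 16, 0, false⟩, ⟨16, 10, 8, 0, false⟩,
   ⟨16, 10, 16, 0, false⟩, ⟨16, 16, 8, 0, false⟩, ⟨16, 16, 10, 0, false⟩, ⟨16, 20, 2, 0, false⟩,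
   ⟨16, 20, 4, 0, false⟩, ⟨17, 1, 5, 0, false⟩, ⟨17, 1, 19, 0, false⟩, ⟨17, 5, 1, 0, false⟩,
   ⟨17, 5, 19, 0, false⟩, ⟨17, 7, 7, 0, false⟩, ⟨17, 7, 13, 0, false⟩, ⟨17, 7, 17, 0, false⟩,
   ⟨17, 9, 9, 0, false⟩, ⟨17, 9, 15, 0, false⟩, ⟨17, 13, 7, 0, false⟩, ⟨17, 13, 13, 0, false⟩,
   ⟨17, 15, 9, 0, false⟩, ⟨17, 17, 7, 0, false⟩, ⟨17, 19, 1, 0, false⟩, ⟨17, 19, 5, 0, false⟩,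
   ⟨18, 8, 12, 0, false⟩, ⟨18, 12, 8, 0, false⟩, ⟨19, 1, 5, 0, false⟩, ⟨19, 1, 17, 0, false⟩,
   ⟨19, 3, 9, 0, false⟩, ⟨19, 3, 15, 0, false⟩, ⟨19, 5, 1, 0, false⟩, ⟨19, 5, 11, 0, false⟩,
   ⟨19, 5, 13, 0, false⟩, ⟨19, 5, 17, 0, false⟩, ⟨19, 9, 3, 0, false⟩, ⟨19, 9, 15, 0, false⟩,
   ⟨19, 11, 5, 0, false⟩, ⟨19, 11, 13, 0, false⟩, ⟨19, 13, 5, 0, false⟩, ⟨19, 13, 11, 0, false⟩,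
   ⟨19, 15, 3, 0, false⟩, ⟨19, 15, 9, 0, false⟩, ⟨19, 17, 1, 0, false⟩, ⟨19, 17, 5, 0, false⟩,
   ⟨20, 2, 4, 0, false⟩, ⟨20, 2, 16, 0, false⟩, ⟨20, 4, 2, 0, false⟩, ⟨20, 4, 8, 0, false⟩,
   ⟨20, 4, 14, 0, false⟩, ⟨20, 4, 16, 0, false⟩, ⟨20, 8, 4, 0, false⟩, ⟨20, 8, 14, 0, false⟩,
   ⟨20, 14, 4, 0, false⟩, ⟨20, 14, 8, 0, false⟩, ⟨20, 16, 2, 0, false⟩, ⟨20, 16, 4, 0, false⟩,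
   ⟨21, 1, 3, 0, false⟩, ⟨21, 1, 15, 0, false⟩, ⟨21, 3, 1, 0, false⟩, ⟨21, 15, 1, 0, false⟩,
   ⟨22, 8, 8, 0, false⟩, ⟨23, 1, 5, 0, false⟩, ⟨23, 1, 11, 0, false⟩, ⟨23, 5, 1, 0, false⟩,
   ⟨23, 5, 11, 0, false⟩, ⟨23, 7, 7, 0, false⟩, ⟨23, 11, 1, 0, false⟩, ⟨23, 11, 5, 0, false⟩,
   ⟨24, 0, 8, 0, false⟩, ⟨24, 0, 10, 0, false⟩, ⟨24, 6, 8, 0, false⟩, ⟨24, 8, 0, 0, false⟩,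
   ⟨24, 8, 6, 0, false⟩, ⟨24, 10, 0, 0, false⟩, ⟨25, 1, 1, 0, false⟩, ⟨25, 1, 5, 0, false⟩,
   ⟨25, 1, 7, 0, false⟩, ⟨25, 5, 1, 0, false⟩, ⟨25, 7, 1, 0, false⟩]

def L29 : List Fm :=
  [⟨0, 3, 16, 0, false⟩, ⟨0, 11, 12, 0, false⟩, ⟨0, 11, 24, 0, false⟩, ⟨0, 12, 11, 0, false⟩,
   ⟨0, 12, 16, 0, false⟩, ⟨0, 16, 3, 0, false⟩, ⟨0, 16, 12, 0, false⟩, ⟨0, 16, 21, 0, false⟩,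
   ⟨0, 16, 24, 0, false⟩, ⟨0, 20, 21, 0, false⟩, ⟨0, 21, 16, 0, false⟩, ⟨0, 21, 20, 0, false⟩,
   ⟨0, 24, 11, 0, false⟩, ⟨0, 24, 16, 0, false⟩, ⟨1, 8, 10, 0, false⟩, ⟨1, 8, 26, 0, false⟩,
   ⟨1, 10, 8, 0, false⟩, ⟨1, 10, 16, 0, false⟩, ⟨1, 10, 22, 0, false⟩, ⟨1, 10, 26, 0, false⟩,
   ⟨1, 16, 10, 0, false⟩, ⟨1, 16, 22, 0, false⟩, ⟨1, 22, 10, 0, false⟩, ⟨1, 22, 16, 0, false⟩,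
   ⟨1, 26, 8, 0, false⟩, ⟨1, 26, 10, 0, false⟩, ⟨2, 2, 7, 0, false⟩, ⟨2, 2, 28, 0, false⟩,
   ⟨2, 4, 14, 0, false⟩, ⟨2, 4, 25, 0, false⟩, ⟨2, 6, 15, 0, false⟩, ⟨2, 6, 24, 0, false⟩,
   ⟨2, 7, 2, 0, false⟩, ⟨2, 7, 28, 0, false⟩, ⟨2, 8, 17, 0, false⟩, ⟨2, 8, 22, 0, false⟩,
   ⟨2, 14, 4, 0, false⟩, ⟨2, 14, 25, 0, false⟩, ⟨2, 15, 6, 0, false⟩, ⟨2, 15, 24, 0, false⟩,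
   ⟨2, 17, 8, 0, false⟩, ⟨2, 17, 22, 0, false⟩, ⟨2, 22, 8, 0, false⟩, ⟨2, 22, 17, 0, false⟩,
   ⟨2, 24, 6, 0, false⟩, ⟨2, 24, 15, 0, false⟩, ⟨2, 25, 4, 0, false⟩, ⟨2, 25, 14, 0, false⟩,
   ⟨2, 28, 2, 0, false⟩, ⟨2, 28, 7, 0, false⟩, ⟨3, 0, 16, 0, false⟩, ⟨3, 16, 0, 0, false⟩,
   ⟨3, 16, 24, 0, false⟩, ⟨3, 24, 16, 0, false⟩, ⟨4, 2, 14, 0, false⟩, ⟨4, 2, 25, 0, false⟩,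
   ⟨4, 4, 5, 0, false⟩, ⟨4, 4, 28, 0, false⟩, ⟨4, 5, 4, 0, false⟩, ⟨4, 5, 20, 0, false⟩,
   ⟨4, 5, 28, 0, false⟩, ⟨4, 7, 10, 0, false⟩, ⟨4, 7, 26, 0, false⟩, ⟨4, 8, 19, 0, false⟩,
   ⟨4, 8, 20, 0, false⟩, ⟨4, 10, 7, 0, false⟩, ⟨4, 10, 10, 0, false⟩, ⟨4, 10, 14, 0, false⟩,
   ⟨4, 10, 23, 0, false⟩, ⟨4, 10, 25, 0, false⟩, ⟨4, 10, 26, 0, false⟩, ⟨4, 13, 16, 0, false⟩,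
   ⟨4, 13, 20, 0, false⟩, ⟨4, 14, 2, 0, false⟩, ⟨4, 14, 10, 0, false⟩, ⟨4, 14, 23, 0, false⟩,
   ⟨4, 14, 25, 0, false⟩, ⟨4, 16, 13, 0, false⟩, ⟨4, 16, 20, 0, false⟩, ⟨4, 19, 8, 0, false⟩,
   ⟨4, 19, 20, 0, false⟩, ⟨4, 20, 5, 0, false⟩, ⟨4, 20, 8, 0, false⟩, ⟨4, 20, 13, 0, false⟩,
   ⟨4, 20, 16, 0, false⟩, ⟨4, 20, 19, 0, false⟩, ⟨4, 20, 20, 0, false⟩, ⟨4, 23, 10, 0, false⟩,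
   ⟨4, 23, 14, 0, false⟩, ⟨4, 25, 2, 0, false⟩, ⟨4, 25, 10, 0, false⟩, ⟨4, 25, 14, 0, false⟩,
   ⟨4, 26, 7, 0, false⟩, ⟨4, 26, 10, 0, false⟩, ⟨4, 28, 4, 0, false⟩, ⟨4, 28, 5, 0, false⟩,
   ⟨5, 4, 4, 0, false⟩, ⟨5, 4, 20, 0, false⟩, ⟨5, 4, 28, 0, false⟩, ⟨5, 20, 4, 0, false⟩,
   ⟨5, 28, 4, 0, false⟩, ⟨6, 2, 15, 0, false⟩, ⟨6, 2, 24, 0, false⟩, ⟨6, 6, 25, 0, false⟩,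
   ⟨6, 9, 20, 0, false⟩, ⟨6, 12, 25, 0, false⟩, ⟨6, 15, 2, 0, false⟩, ⟨6, 15, 16, 0, false⟩,
   ⟨6, 16, 15, 0, false⟩, ⟨6, 16, 18, 0, false⟩, ⟨6, 18, 16, 0, false⟩, ⟨6, 18, 20, 0, false⟩,
   ⟨6, 20, 9, 0, false⟩, ⟨6, 20, 18, 0, false⟩, ⟨6, 24, 2, 0, false⟩, ⟨6, 25, 6, 0, false⟩,
   ⟨6, 25, 12, 0, false⟩, ⟨7, 2, 2, 0, false⟩, ⟨7, 2, 28, 0, false⟩, ⟨7, 4, 10, 0, false⟩,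
   ⟨7, 4, 26, 0, false⟩, ⟨7, 10, 4, 0, false⟩, ⟨7, 10, 26, 0, false⟩, ⟨7, 12, 18, 0, false⟩,
   ⟨7, 14, 20, 0, false⟩, ⟨7, 18, 12, 0, false⟩, ⟨7, 18, 18, 0, false⟩, ⟨7, 20, 14, 0, false⟩,
   ⟨7, 26, 4, 0, false⟩, ⟨7, 26, 10, 0, false⟩, ⟨7, 28, 2, 0, false⟩, ⟨8, 1, 10, 0, false⟩,
   ⟨8, 1, 26, 0, false⟩, ⟨8, 2, 17, 0, false⟩, ⟨8, 2, 22, 0, false⟩, ⟨8, 4, 19, 0, false⟩,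
   ⟨8, 4, 20, 0, false⟩, ⟨8, 10, 1, 0, false⟩, ⟨8, 10, 26, 0, false⟩, ⟨8, 11, 16, 0, false⟩,
   ⟨8, 11, 20, 0, false⟩, ⟨8, 16, 11, 0, false⟩, ⟨8, 16, 20, 0, false⟩, ⟨8, 17, 2, 0, false⟩,
   ⟨8, 17, 22, 0, false⟩, ⟨8, 19, 4, 0, false⟩, ⟨8, 19, 20, 0, false⟩, ⟨8, 20, 4, 0, false⟩,
   ⟨8, 20, 11, 0, false⟩, ⟨8, 20, 16, 0, false⟩, ⟨8, 20, 19, 0, false⟩, ⟨8, 22, 2, 0, false⟩,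
   ⟨8, 22, 17, 0, false⟩, ⟨8, 26, 1, 0, false⟩, ⟨8, 26, 10, 0, false⟩, ⟨9, 6, 20, 0, false⟩,
   ⟨9, 18, 20, 0, false⟩, ⟨9, 20, 6, 0, false⟩, ⟨9, 20, 18, 0, false⟩, ⟨10, 1, 8, 0, false⟩,
   ⟨10, 1, 16, 0, false⟩, ⟨10, 1, 22, 0, false⟩, ⟨10, 1, 26, 0, false⟩, ⟨10, 4, 7, 0, false⟩,
   ⟨10, 4, 10, 0, false⟩, ⟨10, 4, 14, 0, false⟩, ⟨10, 4, 23, 0, false⟩, ⟨10, 4, 25, 0, false⟩,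
   ⟨10, 4, 26, 0, false⟩, ⟨10, 7, 4, 0, false⟩, ⟨10, 7, 26, 0, false⟩, ⟨10, 8, 1, 0, false⟩,
   ⟨10, 8, 26, 0, false⟩, ⟨10, 10, 4, 0, false⟩, ⟨10, 14, 4, 0, false⟩, ⟨10, 14, 16, 0, false⟩,
   ⟨10, 14, 17, 0, false⟩, ⟨10, 14, 23, 0, false⟩, ⟨10, 16, 1, 0, false⟩, ⟨10, 16, 14, 0, false⟩,
   ⟨10, 16, 17, 0, false⟩, ⟨10, 16, 22, 0, false⟩, ⟨10, 17, 14, 0, false⟩, ⟨10, 17, 16, 0, false⟩,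
   ⟨10, 22, 1, 0, false⟩, ⟨10, 22, 16, 0, false⟩, ⟨10, 23, 4, 0, false⟩, ⟨10, 23, 14, 0, false⟩,
   ⟨10, 25, 4, 0, false⟩, ⟨10, 26, 1, 0, false⟩, ⟨10, 26, 4, 0, false⟩, ⟨10, 26, 7, 0, false⟩,
   ⟨10, 26, 8, 0, false⟩, ⟨11, 0, 12, 0, false⟩, ⟨11, 0, 24, 0, false⟩, ⟨11, 8, 16, 0, false⟩,
   ⟨11, 8, 20, 0, false⟩, ⟨11, 12, 0, 0, false⟩, ⟨11, 12, 24, 0, false⟩, ⟨11, 16, 8, 0, false⟩,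
   ⟨11, 16, 20, 0, false⟩, ⟨11, 20, 8, 0, false⟩, ⟨11, 20, 16, 0, false⟩, ⟨11, 24, 0, 0, false⟩,
   ⟨11, 24, 12, 0, false⟩, ⟨12, 0, 11, 0, false⟩, ⟨12, 0, 16, 0, false⟩, ⟨12, 6, 25, 0, false⟩,
   ⟨12, 7, 18, 0, false⟩, ⟨12, 11, 0, 0, false⟩, ⟨12, 11, 24, 0, false⟩, ⟨12, 16, 0, 0, false⟩,
   ⟨12, 16, 21, 0, false⟩, ⟨12, 18, 7, 0, false⟩, ⟨12, 21, 16, 0, false⟩, ⟨12, 24, 11, 0, false⟩,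
   ⟨12, 25, 6, 0, false⟩, ⟨13, 4, 16, 0, false⟩, ⟨13, 4, 20, 0, false⟩, ⟨13, 16, 4, 0, false⟩,
   ⟨13, 16, 20, 0, false⟩, ⟨13, 20, 4, 0, false⟩, ⟨13, 20, 16, 0, false⟩, ⟨14, 2, 4, 0, false⟩,
   ⟨14, 2, 25, 0, false⟩, ⟨14, 4, 2, 0, false⟩, ⟨14, 4, 10, 0, false⟩, ⟨14, 4, 23, 0, false⟩,
   ⟨14, 4, 25, 0, false⟩, ⟨14, 7, 20, 0, false⟩, ⟨14, 10, 4, 0, false⟩, ⟨14, 10, 16, 0, false⟩,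
   ⟨14, 10, 17, 0, false⟩, ⟨14, 10, 23, 0, false⟩, ⟨14, 14, 20, 0, false⟩, ⟨14, 16, 10, 0, false⟩,
   ⟨14, 16, 17, 0, false⟩, ⟨14, 17, 10, 0, false⟩, ⟨14, 17, 16, 0, false⟩, ⟨14, 20, 7, 0, false⟩,
   ⟨14, 20, 14, 0, false⟩, ⟨14, 23, 4, 0, false⟩, ⟨14, 23, 10, 0, false⟩, ⟨14, 25, 2, 0, false⟩,
   ⟨14, 25, 4, 0, false⟩, ⟨15, 2, 6, 0, false⟩, ⟨15, 2, 24, 0, false⟩, ⟨15, 6, 2, 0, false⟩,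
   ⟨15, 6, 16, 0, false⟩, ⟨15, 16, 6, 0, false⟩, ⟨15, 16, 18, 0, false⟩, ⟨15, 18, 16, 0, false⟩,
   ⟨15, 24, 2, 0, false⟩, ⟨16, 0, 3, 0, false⟩, ⟨16, 0, 12, 0, false⟩, ⟨16, 0, 21, 0, false⟩,
   ⟨16, 0, 24, 0, false⟩, ⟨16, 1, 10, 0, false⟩, ⟨16, 1, 22, 0, false⟩, ⟨16, 3, 0, 0, false⟩,
   ⟨16, 3, 24, 0, false⟩, ⟨16, 4, 13, 0, false⟩, ⟨16, 4, 20, 0, false⟩, ⟨16, 6, 15, 0, false⟩,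
   ⟨16, 6, 18, 0, false⟩, ⟨16, 8, 11, 0, false⟩, ⟨16, 8, 20, 0, false⟩, ⟨16, 10, 1, 0, false⟩,
   ⟨16, 10, 14, 0, false⟩, ⟨16, 10, 17, 0, false⟩, ⟨16, 10, 22, 0, false⟩, ⟨16, 11, 8, 0, false⟩,
   ⟨16, 11, 20, 0, false⟩, ⟨16, 12, 0, 0, false⟩, ⟨16, 12, 21, 0, false⟩, ⟨16, 13, 4, 0, false⟩,
   ⟨16, 13, 20, 0, false⟩, ⟨16, 14, 10, 0, false⟩, ⟨16, 14, 17, 0, false⟩, ⟨16, 15, 6, 0, false⟩,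
   ⟨16, 15, 18, 0, false⟩, ⟨16, 17, 10, 0, false⟩, ⟨16, 17, 14, 0, false⟩, ⟨16, 18, 6, 0, false⟩,
   ⟨16, 18, 15, 0, false⟩, ⟨16, 20, 4, 0, false⟩, ⟨16, 20, 8, 0, false⟩, ⟨16, 20, 11, 0, false⟩,
   ⟨16, 20, 13, 0, false⟩, ⟨16, 21, 0, 0, false⟩, ⟨16, 21, 12, 0, false⟩, ⟨16, 22, 1, 0, false⟩,
   ⟨16, 22, 10, 0, false⟩, ⟨16, 24, 0, 0, false⟩, ⟨16, 24, 3, 0, false⟩, ⟨17, 2, 8, 0, false⟩,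
   ⟨17, 2, 22, 0, false⟩, ⟨17, 8, 2, 0, false⟩, ⟨17, 8, 22, 0, false⟩, ⟨17, 10, 14, 0, false⟩,
   ⟨17, 10, 16, 0, false⟩, ⟨17, 14, 10, 0, false⟩, ⟨17, 14, 16, 0, false⟩, ⟨17, 16, 10, 0, false⟩,
   ⟨17, 16, 14, 0, false⟩, ⟨17, 22, 2, 0, false⟩, ⟨17, 22, 8, 0, false⟩, ⟨18, 6, 16, 0, false⟩,
   ⟨18, 6, 20, 0, false⟩, ⟨18, 7, 12, 0, false⟩, ⟨18, 7, 18, 0, false⟩, ⟨18, 9, 20, 0, false⟩,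
   ⟨18, 12, 7, 0, false⟩, ⟨18, 15, 16, 0, false⟩, ⟨18, 16, 6, 0, false⟩, ⟨18, 16, 15, 0, false⟩,
   ⟨18, 18, 7, 0, false⟩, ⟨18, 20, 6, 0, false⟩, ⟨18, 20, 9, 0, false⟩, ⟨19, 4, 8, 0, false⟩,
   ⟨19, 4, 20, 0, false⟩, ⟨19, 8, 4, 0, false⟩, ⟨19, 8, 20, 0, false⟩, ⟨19, 20, 4, 0, false⟩,
   ⟨19, 20, 8, 0, false⟩, ⟨20, 0, 21, 0, false⟩, ⟨20, 4, 5, 0, false⟩, ⟨20, 4, 8, 0, false⟩,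
   ⟨20, 4, 13, 0, false⟩, ⟨20, 4, 16, 0, false⟩, ⟨20, 4, 19, 0, false⟩, ⟨20, 4, 20, 0, false⟩,
   ⟨20, 5, 4, 0, false⟩, ⟨20, 6, 9, 0, false⟩, ⟨20, 6, 18, 0, false⟩, ⟨20, 7, 14, 0, false⟩,
   ⟨20, 8, 4, 0, false⟩, ⟨20, 8, 11, 0, false⟩, ⟨20, 8, 16, 0, false⟩, ⟨20, 8, 19, 0, false⟩,
   ⟨20, 9, 6, 0, false⟩, ⟨20, 9, 18, 0, false⟩, ⟨20, 11, 8, 0, false⟩, ⟨20, 11, 16, 0, false⟩,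
   ⟨20, 13, 4, 0, false⟩, ⟨20, 13, 16, 0, false⟩, ⟨20, 14, 7, 0, false⟩, ⟨20, 14, 14, 0, false⟩,
   ⟨20, 16, 4, 0, false⟩, ⟨20, 16, 8, 0, false⟩, ⟨20, 16, 11, 0, false⟩, ⟨20, 16, 13, 0, false⟩,
   ⟨20, 18, 6, 0, false⟩, ⟨20, 18, 9, 0, false⟩, ⟨20, 19, 4, 0, false⟩, ⟨20, 19, 8, 0, false⟩,
   ⟨20, 20, 4, 0, false⟩, ⟨20, 21, 0, 0, false⟩, ⟨21, 0, 16, 0, false⟩, ⟨21, 0, 20, 0, false⟩,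
   ⟨21, 12, 16, 0, false⟩, ⟨21, 16, 0, 0, false⟩, ⟨21, 16, 12, 0, false⟩, ⟨21, 20, 0, 0, false⟩,
   ⟨22, 1, 10, 0, false⟩, ⟨22, 1, 16, 0, false⟩, ⟨22, 2, 8, 0, false⟩, ⟨22, 2, 17, 0, false⟩,
   ⟨22, 8, 2, 0, false⟩, ⟨22, 8, 17, 0, false⟩, ⟨22, 10, 1, 0, false⟩, ⟨22, 10, 16, 0, false⟩,
   ⟨22, 16, 1, 0, false⟩, ⟨22, 16, 10, 0, false⟩, ⟨22, 17, 2, 0, false⟩, ⟨22, 17, 8, 0, false⟩,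
   ⟨23, 4, 10, 0, false⟩, ⟨23, 4, 14, 0, false⟩, ⟨23, 10, 4, 0, false⟩, ⟨23, 10, 14, 0, false⟩,
   ⟨23, 14, 4, 0, false⟩, ⟨23, 14, 10, 0, false⟩, ⟨24, 0, 11, 0, false⟩, ⟨24, 0, 16, 0, false⟩,
   ⟨24, 2, 6, 0, false⟩, ⟨24, 2, 15, 0, false⟩, ⟨24, 3, 16, 0, false⟩, ⟨24, 6, 2, 0, false⟩,
   ⟨24, 11, 0, 0, false⟩, ⟨24, 11, 12, 0, false⟩, ⟨24, 12, 11, 0, false⟩, ⟨24, 15, 2, 0, false⟩,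
   ⟨24, 16, 0, 0, false⟩, ⟨24, 16, 3, 0, false⟩, ⟨25, 2, 4, 0, false⟩, ⟨25, 2, 14, 0, false⟩,
   ⟨25, 4, 2, 0, false⟩, ⟨25, 4, 10, 0, false⟩, ⟨25, 4, 14, 0, false⟩, ⟨25, 6, 6, 0, false⟩,
   ⟨25, 6, 12, 0, false⟩, ⟨25, 10, 4, 0, false⟩, ⟨25, 12, 6, 0, false⟩, ⟨25, 14, 2, 0, false⟩,
   ⟨25, 14, 4, 0, false⟩, ⟨26, 1, 8, 0, false⟩, ⟨26, 1, 10, 0, false⟩, ⟨26, 4, 7, 0, false⟩,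
   ⟨26, 4, 10, 0, false⟩, ⟨26, 7, 4, 0, false⟩, ⟨26, 7, 10, 0, false⟩, ⟨26, 8, 1, 0, false⟩,
   ⟨26, 8, 10, 0, false⟩, ⟨26, 10, 1, 0, false⟩, ⟨26, 10, 4, 0, false⟩, ⟨26, 10, 7, 0, false⟩,
   ⟨26, 10, 8, 0, false⟩, ⟨28, 2, 2, 0, false⟩, ⟨28, 2, 7, 0, false⟩, ⟨28, 4, 4, 0, false⟩,
   ⟨28, 4, 5, 0, false⟩, ⟨28, 5, 4, 0, false⟩, ⟨28, 7, 2, 0, false⟩]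

def startL : Node :=
  ⟨[[⟨1, 0, 0, 0, false⟩], [⟨0, 2, 0, 0, false⟩, ⟨1, 1, 1, 0, false⟩], L3, L6, L7, L9, L11, L13,
    L18, L22, L23, L26, L29], false, false, [(1, 2, 3)]⟩

theorem root_true : root startL = true := by decide +kernel

end Pool.Agent.X3.P4
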